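import Pool.Agent.FO90.Same
import Pool.Agent.NS90.ValueClass

/-!
# Transfer of powers and of values of forms
-/

set_option maxSynthPendingDepth 10

namespace FO90

open FT80 BF80 LD90 NS90

section

variable {p : ℕ} [hp : Fact p.Prime] {M1 M2 : Type} [Field M1] [Field M2] {σ1 : P1 p →+* M1}
  {σ2 : P1 p →+* M2}

/-- powers among the elements `γ t ^ i` -/
theorem FT.pow_sig (hM1 : Mdl p σ1) (hM2 : Mdl p σ2) {d : ℕ} (hd : d ≠ 0) {γ i : ℕ} {w : M1}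
    (h : w ^ d = γ * σ1 Polynomial.X ^ i) : ∃ v : M2, v ^ d = γ * σ2 Polynomial.X ^ i := by
  obtain ⟨j1, hj1, ha1, -, -⟩ := hM1.exists_j
  obtain ⟨j2, hj2, -, -, -⟩ := hM2.exists_j
  have hw : BF80.Alg1 σ1 w := by
    refine ⟨Polynomial.X ^ d - Polynomial.C ((γ : P1 p) * Polynomial.X ^ i),
      Polynomial.X_pow_sub_C_ne_zero (Nat.pos_of_ne_zero hd) _, ?_⟩
    show Polynomial.eval₂ σ1 w (Polynomial.X ^ d - Polynomial.C ((γ : P1 p) * Polynomial.X ^ i)) = 0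
    rw [Polynomial.eval₂_sub, Polynomial.eval₂_X_pow, Polynomial.eval₂_C, map_mul, map_natCast,
      map_pow, h, sub_self]
  obtain ⟨z, rfl⟩ := (ha1 w).1 hw
  refine ⟨j2 z, ?_⟩
  have hz : z ^ d = γ * sig0 p Polynomial.X ^ i := by
    apply j1.injective
    rw [map_pow, h, map_mul, map_natCast, map_pow, hj1]
  rw [← map_pow, hz, map_mul, map_natCast, map_pow, hj2]

/-- FO-3 (FormT.lean; helper38) -/
theorem pow_transfer (hM1 : Mdl p σ1) (hM2 : Mdl p σ2) {D : ℕ} (hD : ¬ p ∣ D) {d : ℕ} (hdD : d ∣ D)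
    {a : M1} {b : M2} (h : Cl σ1 σ2 D a b) (ha : ∃ u, a = u ^ d) : ∃ u, b = u ^ d := by
  have hD0 : D ≠ 0 := fun h => hD (h ▸ dvd_zero p)
  have hd0 : d ≠ 0 := fun h => hD0 (Nat.eq_zero_of_zero_dvd (h ▸ hdD))
  obtain ⟨u, rfl⟩ := ha
  rcases h with ⟨-, rfl⟩ | ⟨γ, i, m, n, h1, h2, h3, h4, rfl⟩
  · exact ⟨0, (zero_pow hd0).symm⟩
  · obtain ⟨e, rfl⟩ := hdD
    obtain ⟨v, hv⟩ := FT.pow_sig hM1 hM2 hd0 (γ := γ) (i := i) (w := u / m ^ e) (by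
      rw [div_pow, h4, ← pow_mul, mul_comm e d]
      exact mul_div_cancel_right₀ _ (pow_ne_zero _ h2))
    refine ⟨v * n ^ e, ?_⟩
    rw [mul_pow, hv, ← pow_mul, mul_comm e d]

/-- FO-3 (FormT.lean; helper38): by `NS90.value_class` and `pow_transfer` -/
theorem form_transfer (hM1 : Mdl p σ1) (hM2 : Mdl p σ2) {D : ℕ} (hD : ¬ p ∣ D) (F : PL) {d : ℕ}
    (hdD : d ∣ D) (hF : ∀ m ∈ F, m.2.length = d)
    (hF' : d ≤ 3 ∨ ¬ Sing (HahnSeries.single 1 1 : LaurentSeries (ZMod p)) F)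
    {a : M1} {b : M2} (h : Cl σ1 σ2 D a b) (ha : ∃ y : ℕ → M1, a = ev (σ1 Polynomial.X) y F) :
    ∃ y : ℕ → M2, b = ev (σ2 Polynomial.X) y F := by
  have hD0 : D ≠ 0 := fun h => hD (h ▸ dvd_zero p)
  have hd0 : d ≠ 0 := fun h => hD0 (Nat.eq_zero_of_zero_dvd (h ▸ hdD))
  have hpd : ¬ p ∣ d := fun h => hD (h.trans hdD)
  obtain ⟨y, rfl⟩ := ha
  rcases h with ⟨-, rfl⟩ | h
  · exact ⟨fun _ => 0, (FB90.VC.ev_zero _ hd0 F hF).symm⟩
  have ha0 := h.ne_left hM1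
  have hb0 := h.ne_right hM2
  obtain ⟨γ, i, z, y0, hz, hy0⟩ := value_class hM1 F d hpd hF hF' y
  have hγ : ¬ p ∣ γ := by
    rintro hdvd
    apply ha0
    have h3 : (γ : M1) = σ1 (Polynomial.C ((γ : ℕ) : ZMod p)) := by
      rw [Polynomial.C_eq_natCast, map_natCast]
    rw [hz, h3, (ZMod.natCast_eq_zero_iff _ _).2 hdvd, Polynomial.C_0, map_zero, zero_mul, zero_mul]
  set c1 : M1 := γ * σ1 Polynomial.X ^ i with hc1
  set c2 : M2 := γ * σ2 Polynomial.X ^ i with hc2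
  have hc : Same σ1 σ2 D c1 c2 := ⟨γ, i, 1, 1, hγ, one_ne_zero, one_ne_zero, by simp [hc1], by simp [hc2]⟩
  have hc20 : c2 ≠ 0 := hc.ne_right hM2
  have hpw : ∀ n : ℕ, Same σ1 σ2 D (c1 ^ n) (c2 ^ n) := by
    intro n
    induction n with
    | zero =>
      have := Same.natCast (σ1 := σ1) (σ2 := σ2) (D := D) (p := p) (c := 1)
        (fun h => hp.out.one_lt.not_ge (Nat.le_of_dvd one_pos h))
      simpa using this
    | succ n ih =>
      rw [pow_succ, pow_succ]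
      exact ih.mul hc
  have hcz : ev (σ1 Polynomial.X) y F * c1 ^ (d - 1) = (c1 * z) ^ d := by
    have h1 : c1 ^ d = c1 * c1 ^ (d - 1) := by
      rw [← pow_succ', Nat.sub_add_cancel (Nat.pos_of_ne_zero hd0)]
    rw [hz, mul_pow c1 z, h1, mul_right_comm]
  obtain ⟨v, hv⟩ := pow_transfer hM1 hM2 hD hdD (Or.inr (h.mul (hpw (d - 1)))) ⟨c1 * z, hcz⟩
  have hb : b = c2 * (v / c2) ^ d := by
    have h1 : c2 ^ d = c2 * c2 ^ (d - 1) := by
      rw [← pow_succ', Nat.sub_add_cancel (Nat.pos_of_ne_zero hd0)]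
    rw [div_pow, ← hv, h1]
    have h2 : c2 ^ (d - 1) ≠ 0 := pow_ne_zero _ hc20
    field_simp
  have hvc : v / c2 ≠ 0 := by
    intro h0
    rw [h0, zero_pow hd0, mul_zero] at hb
    exact hb0 hb
  obtain ⟨j2, hj2, -, -, -⟩ := hM2.exists_j
  refine ⟨fun k => j2 (y0 k) / (v / c2)⁻¹, ?_⟩
  have h5 := FB90.VC.ev_div (σ2 Polynomial.X) (v / c2)⁻¹ (inv_ne_zero hvc) (fun k => j2 (y0 k)) F hF
  have h6 : ev (σ2 Polynomial.X) (fun k => j2 (y0 k)) F = c2 := by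
    rw [← hj2, LD90.ev_map, hy0, map_mul, map_natCast, map_pow, hj2]
  rw [h6, inv_pow] at h5
  rw [hb]
  have h7 : (v / c2) ^ d ≠ 0 := pow_ne_zero _ hvc
  field_simp at h5 ⊢
  linear_combination h5

end

end FO90
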