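import Pool.Agent.FO90.Defs
import Pool.Agent.CB90.Down
import Pool.Agent.BF80.Val

/-!
# From the ultrapower to the field
-/

set_option maxSynthPendingDepth 10

namespace FO90

open FT80 BF80 LD90 NS90 Filter

namespace Lo

theorem pv_map {R S : Type*} [CommRing R] [CommRing S] (φ : R →+* S) (t : R) (s z : ℕ → R)
    (f : PZ) : pv (φ t) (fun i => φ (s i)) (fun i => φ (z i)) f = φ (pv t s z f) :=
  CB90.qv_map φ t s z f

variable {K : Type} [Field K] (t : K)

/-- the hyperfilter -/
noncomputable abbrev hf : Ultrafilter ℕ := hyperfilter ℕ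

theorem lift (y : ℕ → UP K) : ∃ Y : ℕ → (ℕ → K), (fun i => cl K (Y i)) = y := by
  have hY : ∀ i, ∃ r : ℕ → K, cl K r = y i := fun i => cl_surj _
  choose Y hY using hY
  exact ⟨Y, funext hY⟩

theorem eev (S : ℕ → (ℕ → K)) (b : PL) (n : ℕ) :
    ev (fun _ : ℕ => t) S b n = ev t (fun i => S i n) b :=
  (CB90.ev_map' (Pi.evalRingHom (fun _ : ℕ => K) n) (fun _ => t) S b).symm

theorem epv (S Z : ℕ → (ℕ → K)) (l : PZ) (n : ℕ) :
    pv (fun _ : ℕ => t) S Z l n = pv t (fun i => S i n) (fun i => Z i n) l :=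
  (pv_map (Pi.evalRingHom (fun _ : ℕ => K) n) (fun _ => t) S Z l).symm

theorem ht : diag K t = cl K (fun _ => t) := (cl_const t).symm

theorem pv_cl (S Z : ℕ → (ℕ → K)) (l : PZ) :
    pv (diag K t) (fun i => cl K (S i)) (fun i => cl K (Z i)) l =
      cl K (fun n => pv t (fun i => S i n) (fun i => Z i n) l) := by
  rw [ht, pv_map]
  congr 1
  funext n
  exact epv t S Z l n

theorem ev_cl (S : ℕ → (ℕ → K)) (b : PL) :
    ev (diag K t) (fun i => cl K (S i)) b = cl K (fun n => ev t (fun i => S i n) b) := by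
  rw [ht, CB90.ev_map']
  congr 1
  funext n
  exact eev t S b n

theorem cl_zero (f : ℕ → K) : cl K f = 0 ↔ ∀ᶠ n in (hf : Filter ℕ), f n = 0 := by
  rw [← map_zero (cl K), cl_eq]
  rfl

/-- choice of representatives -/
theorem ev_choice {A : Type*} [Nonempty A] {P : ℕ → A → Prop} :
    (∀ᶠ n in (hf : Filter ℕ), ∃ a, P n a) ↔ ∃ f : ℕ → A, ∀ᶠ n in (hf : Filter ℕ), P n (f n) := by
  classical
  constructor
  · intro h
    refine ⟨fun n => if hn : ∃ a, P n a then hn.choose else Classical.arbitrary A, ?_⟩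
    filter_upwards [h] with n hn
    rw [dif_pos hn]
    exact hn.choose_spec
  · rintro ⟨f, h⟩
    filter_upwards [h] with n hn
    exact ⟨f n, hn⟩

theorem los_DV (a b : ℕ → K) : DV (diag K t) (cl K a) (cl K b) ↔
    ∀ᶠ n in (hf : Filter ℕ), DV t (a n) (b n) := by
  constructor
  · rintro ⟨c, ⟨y, hy⟩, hc⟩
    obtain ⟨c, rfl⟩ := cl_surj c
    obtain ⟨y, rfl⟩ := cl_surj y
    rw [ht, ← map_pow, ← map_add, ← map_pow, ← map_mul, cl_eq] at hy
    rw [← map_mul, cl_eq] at hc
    filter_upwards [hy, hc] with n h1 h2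
    exact ⟨c n, ⟨y n, h1⟩, h2⟩
  · intro h
    have h1 : ∀ᶠ n in (hf : Filter ℕ), ∃ q : K × K, q.2 ^ 2 + q.2 = t * q.1 ^ 2 ∧
        q.1 * a n = b n := by
      filter_upwards [h] with n hn
      obtain ⟨c, ⟨y, hy⟩, hc⟩ := hn
      exact ⟨(c, y), hy, hc⟩
    obtain ⟨f, hf'⟩ := ev_choice.1 h1
    refine ⟨cl K fun n => (f n).1, ⟨cl K fun n => (f n).2, ?_⟩, ?_⟩
    · rw [ht, ← map_pow, ← map_add, ← map_pow, ← map_mul, cl_eq]
      filter_upwards [hf'] with n hn
      exact hn.1
    · rw [← map_mul, cl_eq]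
      filter_upwards [hf'] with n hn
      exact hn.2

theorem los_atom (S Z : ℕ → (ℕ → K)) (x : Atm) :
    Atm.Holds (diag K t) (DV (diag K t)) (fun i => cl K (S i)) (fun i => cl K (Z i)) x ↔
      ∀ᶠ n in (hf : Filter ℕ), Atm.Holds t (DV t) (fun i => S i n) (fun i => Z i n) x := by
  obtain ⟨k, l, l', F⟩ := x
  match k with
  | 0 =>
    show pv _ _ _ l = 0 ↔ ∀ᶠ n in (hf : Filter ℕ), pv _ _ _ l = 0
    rw [pv_cl, cl_zero]
  | 1 =>
    show DV _ (pv _ _ _ l) (pv _ _ _ l') ↔
      ∀ᶠ n in (hf : Filter ℕ), DV t (pv _ _ _ l) (pv _ _ _ l')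
    rw [pv_cl, pv_cl, los_DV]
  | 2 =>
    show (∃ y : ℕ → UP K, pv _ _ _ l = ev _ y F) ↔
      ∀ᶠ n in (hf : Filter ℕ), ∃ y : ℕ → K, pv t _ _ l = ev t y F
    rw [pv_cl, ev_choice]
    constructor
    · rintro ⟨y, hy⟩
      obtain ⟨Y, rfl⟩ := lift y
      rw [ev_cl, cl_eq] at hy
      exact ⟨fun n i => Y i n, hy⟩
    · rintro ⟨Y, hY⟩
      refine ⟨fun i => cl K fun n => Y n i, ?_⟩
      rw [ev_cl, cl_eq]
      exact hY
  | k + 3 =>
    show (∃ y : ℕ → UP K, pv _ _ _ l = pv _ _ y l') ↔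
      ∀ᶠ n in (hf : Filter ℕ), ∃ y : ℕ → K, pv t _ _ l = pv t _ y l'
    rw [pv_cl, ev_choice]
    constructor
    · rintro ⟨y, hy⟩
      obtain ⟨Y, rfl⟩ := lift y
      rw [pv_cl, cl_eq] at hy
      exact ⟨fun n i => Y i n, hy⟩
    · rintro ⟨Y, hY⟩
      refine ⟨fun i => cl K fun n => Y n i, ?_⟩
      rw [pv_cl, cl_eq]
      exact hY

theorem los_mat (S Z : ℕ → (ℕ → K)) (m : Mat) :
    MHolds (diag K t) (DV (diag K t)) (fun i => cl K (S i)) (fun i => cl K (Z i)) m ↔
      ∀ᶠ n in (hf : Filter ℕ), MHolds t (DV t) (fun i => S i n) (fun i => Z i n) m := by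
  have h1 : (∀ᶠ n in (hf : Filter ℕ), MHolds t (DV t) (fun i => S i n) (fun i => Z i n) m) ↔
      ∃ c ∈ {c | c ∈ m}, ∀ᶠ n in (hf : Filter ℕ), ∀ x ∈ {x | x ∈ c}, (x.1 = true ↔
        Atm.Holds t (DV t) (fun i => S i n) (fun i => Z i n) x.2) :=
    Ultrafilter.eventually_exists_mem_iff (List.finite_toSet m)
  rw [h1]
  refine exists_congr fun c => and_congr_right fun _ => ?_
  rw [Filter.eventually_all_finite (List.finite_toSet c)]
  refine forall_congr' fun x => imp_congr_right fun _ => ?_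
  rw [los_atom]
  rcases x.1 with _ | _
  · simp only [Bool.false_eq_true, false_iff]
    exact Ultrafilter.eventually_not.symm
  · simp only [true_iff]

theorem los (S : ℕ → (ℕ → K)) (m : Mat) (π : List (Bool × ℕ)) : ∀ Z : ℕ → (ℕ → K),
    (Holds (diag K t) (DV (diag K t)) (fun i => cl K (S i)) m π (fun i => cl K (Z i)) ↔
      ∀ᶠ n in (hf : Filter ℕ), Holds t (DV t) (fun i => S i n) m π (fun i => Z i n)) := by
  induction π with
  | nil => exact fun Z => los_mat t S Z m
  | cons q π ih =>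
    intro Z
    obtain ⟨b, i⟩ := q
    have e1 : ∀ X : ℕ → K, Function.update (fun j => cl K (Z j)) i (cl K X) =
        fun j => cl K (Function.update Z i X j) := fun X => (CB90.update_map (cl K) Z i X).symm
    have e2 : ∀ (X : ℕ → K) (n : ℕ), (fun j => Function.update Z i X j n) =
        Function.update (fun j => Z j n) i (X n) := fun X n =>
      CB90.update_map (Pi.evalRingHom (fun _ : ℕ => K) n) Z i X
    have key : ∀ X : ℕ → K, (Holds (diag K t) (DV (diag K t)) (fun i => cl K (S i)) m π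
        (Function.update (fun j => cl K (Z j)) i (cl K X)) ↔
        ∀ᶠ n in (hf : Filter ℕ), Holds t (DV t) (fun i => S i n) m π
          (Function.update (fun j => Z j n) i (X n))) := by
      intro X
      rw [e1, ih]
      refine Filter.eventually_congr (Eventually.of_forall fun n => ?_)
      rw [e2]
    rcases b with _ | _
    · show (∀ x : UP K, Holds _ _ _ m π (Function.update _ i x)) ↔
        ∀ᶠ n in (hf : Filter ℕ), ∀ x : K, Holds _ _ _ m π (Function.update _ i x)
      constructor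
      · intro h
        by_contra hcon
        rw [← Ultrafilter.eventually_not] at hcon
        simp only [not_forall] at hcon
        obtain ⟨X, hX⟩ := ev_choice.1 hcon
        have h1 := (key X).1 (h (cl K X))
        obtain ⟨n, h2, h3⟩ := (h1.and hX).exists
        exact h3 h2
      · intro h x
        obtain ⟨X, rfl⟩ := cl_surj x
        rw [key]
        filter_upwards [h] with n hn
        exact hn (X n)
    · show (∃ x : UP K, Holds _ _ _ m π (Function.update _ i x)) ↔
        ∀ᶠ n in (hf : Filter ℕ), ∃ x : K, Holds _ _ _ m π (Function.update _ i x)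
      rw [ev_choice]
      constructor
      · rintro ⟨x, hx⟩
        obtain ⟨X, rfl⟩ := cl_surj x
        exact ⟨X, (key X).1 hx⟩
      · rintro ⟨X, hX⟩
        exact ⟨cl K X, (key X).2 hX⟩

theorem base_ev (S : ℕ → (ℕ → K)) (B : List PL)
    (hB : Base (diag K t) B (fun i => cl K (S i))) :
    ∀ᶠ n in (hf : Filter ℕ), Base t B (fun i => S i n) := by
  have c1 : ∀ᶠ n in (hf : Filter ℕ),
      ∀ i ∈ Finset.range B.length, ∀ b, B[i]? = some b → ev t (fun i => S i n) b = 0 ∧
        ∃ z, ev t (Function.update (fun j => S j n) (i + 1) z) b ≠ 0 := by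
    rw [eventually_all_finset]
    intro i _
    rcases hb : B[i]? with _ | b
    · exact Eventually.of_forall fun n b hb' => by simp at hb'
    · obtain ⟨h1, wU, h2⟩ := hB i b hb
      obtain ⟨w, rfl⟩ := cl_surj wU
      have h3 : ∀ᶠ n in (hf : Filter ℕ), ev t (fun i => S i n) b = 0 := by
        rwa [ev_cl, cl_zero] at h1
      have h4 : ∀ᶠ n in (hf : Filter ℕ),
          ev t (fun j => Function.update S (i + 1) w j n) b ≠ 0 := by
        rw [Ultrafilter.eventually_not]
        intro hcon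
        apply h2
        rw [← CB90.update_map, ev_cl, cl_zero]
        exact hcon
      filter_upwards [h3, h4] with n h5 h6 b' hb'
      obtain rfl : b = b' := Option.some.inj hb'
      refine ⟨h5, w n, ?_⟩
      have e' : (fun j => Function.update S (i + 1) w j n)
          = Function.update (fun j => S j n) (i + 1) (w n) :=
        CB90.update_map (Pi.evalRingHom (fun _ : ℕ => K) n) S (i + 1) w
      rw [← e']
      exact h6
  filter_upwards [c1] with n hn i b hb
  have hi : i < B.length := (List.getElem?_eq_some_iff.1 hb).1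
  exact hn i (Finset.mem_range.2 hi) b hb

end Lo

/-- FO-5: from the ultrapower to the field -/
theorem psol_of_up {K : Type} [Field K] (t : K) (a : Inp)
    (h : PSol (diag K t) (DV (diag K t)) a) : PSol t (DV t) a := by
  obtain ⟨B, π, m⟩ := a
  obtain ⟨s, hB, hH⟩ := h
  obtain ⟨S, rfl⟩ := Lo.lift s
  have e0 : (fun _ : ℕ => (0 : UP K)) = fun i => cl K ((fun _ _ => 0 : ℕ → ℕ → K) i) := by
    funext i
    exact (map_zero (cl K)).symm
  rw [e0, Lo.los] at hH
  obtain ⟨n, h1, h2⟩ := ((Lo.base_ev t S B hB).and hH).exists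
  exact ⟨fun i => S i n, h1, h2⟩

end FO90
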