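import Pool.Agent.FO90.Step
import Pool.Agent.FO90.FormT
import Pool.Agent.OP90.QuadNF
import Pool.Agent.CB90.Up

/-!
# Values of polynomials of degree two in two models
-/

set_option maxSynthPendingDepth 10

namespace FO90

open FT80 BF80 LD90 NS90

namespace QA

section nf

open MvPolynomial Matrix

variable {E : Type} [Field E] {n : ℕ}

/-- normal form of quadratic polynomials, uniform in the field -/
theorem quad_nf [Infinite E] (h2 : (2 : E) ≠ 0) (q : MvPolynomial (Fin n) E)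
    (hq : q.totalDegree ≤ 2) :
    (∀ (M : Type) [Field M] (j : E →+* M) (c : M), ∃ x : Fin n → M, eval₂ j x q = c) ∨
      ∃ (m : ℕ) (w : Fin m → E) (c : E), ∀ (M : Type) [Field M] (j : E →+* M),
        (∀ x : Fin n → M, ∃ z : Fin m → M, eval₂ j x q = ∑ i, j (w i) * z i ^ 2 + j c) ∧
        ∀ z : Fin m → M, ∃ x : Fin n → M, eval₂ j x q = ∑ i, j (w i) * z i ^ 2 + j c := by
  classical
  obtain ⟨A, b, c, hA, hq2⟩ := (OP90.QP2.of_deg q hq).symm h2
  obtain ⟨N, V, W, D, hVW, hD⟩ := OP90.exists_diag h2 A hA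
  by_cases H : ∃ k, D k = 0 ∧ (b ᵥ* V) k ≠ 0
  · left
    intro M _ j c0
    obtain ⟨k, hk, hbk⟩ := H
    have hbk' : j ((b ᵥ* V) k) ≠ 0 := (map_ne_zero j).2 hbk
    refine ⟨V.map j *ᵥ Pi.single k ((c0 - j c) / j ((b ᵥ* V) k)), ?_⟩
    rw [OP90.evalV j A b c q hq2 V D hD, Finset.sum_eq_single k, Finset.sum_eq_single k,
      Pi.single_eq_same, hk, map_zero]
    · field_simp
      ring
    · intro l _ hl
      rw [Pi.single_eq_of_ne hl, mul_zero]
    · intro h
      exact absurd (Finset.mem_univ _) h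
    · intro l _ hl
      rw [Pi.single_eq_of_ne hl]
      ring
    · intro h
      exact absurd (Finset.mem_univ _) h
  · right
    have hs : ∀ k, (b ᵥ* V) k = 2 * D k * ((b ᵥ* V) k / (2 * D k)) := by
      intro k
      by_cases hk : D k = 0
      · have h3 : (b ᵥ* V) k = 0 := by
          by_contra h
          exact H ⟨k, hk, h⟩
        rw [h3, zero_div, mul_zero]
      · field_simp
    set s : Fin N → E := fun k => (b ᵥ* V) k / (2 * D k) with hsdef
    have hs' : ∀ k, (b ᵥ* V) k = 2 * D k * s k := hs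
    refine ⟨N, D, c - ∑ k, D k * s k ^ 2, fun M _ j => ?_⟩
    have h5 : ∀ (k : Fin N) (a : M), j (D k) * (a + j (s k)) ^ 2
        = (j (D k) * a ^ 2 + j ((b ᵥ* V) k) * a) + j (D k * s k ^ 2) := by
      intro k a
      rw [hs' k]
      simp only [map_mul, map_pow, map_ofNat]
      ring
    constructor
    · intro x
      refine ⟨fun k => (W.map j *ᵥ x) k + j (s k), ?_⟩
      have h3 : V.map j *ᵥ (W.map j *ᵥ x) = x := by
        rw [Matrix.mulVec_mulVec, ← Matrix.map_mul, hVW, Matrix.map_one _ (map_zero j) (map_one j),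
          Matrix.one_mulVec]
      have h4 := OP90.evalV j A b c q hq2 V D hD (W.map j *ᵥ x)
      rw [h3] at h4
      rw [h4, Finset.sum_congr rfl fun k _ => h5 k _, Finset.sum_add_distrib,
        Finset.sum_add_distrib, map_sub, map_sum]
      ring
    · intro z
      refine ⟨V.map j *ᵥ fun k => z k - j (s k), ?_⟩
      rw [OP90.evalV j A b c q hq2 V D hD]
      have h6 : ∀ k, j (D k) * z k ^ 2
          = (j (D k) * (z k - j (s k)) ^ 2 + j ((b ᵥ* V) k) * (z k - j (s k)))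
            + j (D k * s k ^ 2) := by
        intro k
        rw [← h5 k, sub_add_cancel]
      rw [Finset.sum_congr rfl fun k _ => h6 k, Finset.sum_add_distrib, Finset.sum_add_distrib,
        map_sub, map_sum]
      ring

/-- normal form of polynomials of degree at most one, uniform in the field -/
theorem lin_nf (q : MvPolynomial (Fin n) E) (hq : q.totalDegree ≤ 1) :
    (∀ (M : Type) [Field M] (j : E →+* M) (c : M), ∃ x : Fin n → M, eval₂ j x q = c) ∨
      ∃ c : E, ∀ (M : Type) [Field M] (j : E →+* M) (x : Fin n → M), eval₂ j x q = j c := by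
  classical
  obtain ⟨a, ha⟩ := LD90.lin_form (homogeneousComponent_isHomogeneous 1 q)
  have h1 : ∃ c0, q = C c0 + homogeneousComponent 1 q := by
    refine ⟨coeff 0 q, ?_⟩
    conv_lhs => rw [← MvPolynomial.sum_homogeneousComponent q]
    have h2 : ∑ i ∈ Finset.range (q.totalDegree + 1), homogeneousComponent i q =
        ∑ i ∈ Finset.range 2, homogeneousComponent i q := by
      apply Finset.sum_subset
      · intro i hi
        rw [Finset.mem_range] at hi ⊢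
        omega
      · intro i _ hi
        apply homogeneousComponent_eq_zero
        rw [Finset.mem_range] at hi
        omega
    rw [h2, Finset.sum_range_succ, Finset.sum_range_one, homogeneousComponent_zero]
  obtain ⟨c0, h1⟩ := h1
  rw [ha] at h1
  by_cases hb : ∃ b, a b ≠ 0
  · left
    obtain ⟨b, hb⟩ := hb
    intro M _ j c
    have hb' : j (a b) ≠ 0 := (map_ne_zero j).2 hb
    refine ⟨Pi.single b ((c - j c0) / j (a b)), ?_⟩
    rw [h1]
    simp only [eval₂_add, eval₂_sum, eval₂_mul, eval₂_C, eval₂_X]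
    rw [Finset.sum_eq_single b]
    · rw [Pi.single_eq_same, div_mul_cancel₀ _ hb']
      ring
    · intro d _ hd
      rw [Pi.single_eq_of_ne hd, zero_mul]
    · intro h
      exact absurd (Finset.mem_univ b) h
  · right
    push Not at hb
    refine ⟨c0, fun M _ j x => ?_⟩
    rw [h1]
    simp only [eval₂_add, eval₂_sum, eval₂_mul, eval₂_C, eval₂_X]
    rw [Finset.sum_eq_zero, add_zero]
    intro d _
    rw [hb d, map_zero, mul_zero]

end nf

section diag

variable {p : ℕ} [hp : Fact p.Prime] {M1 M2 : Type} [Field M1] [Field M2] {σ1 : P1 p →+* M1}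
  {σ2 : P1 p →+* M2} (hM1 : Mdl p σ1) (hM2 : Mdl p σ2) {E : Type} [Field E] (e1 : E →+* M1)
  (e2 : E →+* M2) (te : E) (ht1 : e1 te = σ1 Polynomial.X) (ht2 : e2 te = σ2 Polynomial.X)

include hM1 hM2 ht1 ht2

/-- values of diagonal forms of degree two -/
theorem diag {D : ℕ} (hD : ¬ p ∣ D) (hE : ∀ x : E, x ≠ 0 → Same σ1 σ2 D (e1 x) (e2 x))
    (hEv : ∀ x y : E, hM1.fv (e1 x) ≤ hM1.fv (e1 y) ↔ hM2.fv (e2 x) ≤ hM2.fv (e2 y))
    (m : ℕ) (hm : m ≠ 0 → 2 ∣ D) (w : Fin m → E) :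
    ∀ (V : Type) [AddCommGroup V] [Module E V] (v : V),
    ∃ Λ : Finset V, ∀ (ρ1 : V →ₛₗ[e1] M1) (ρ2 : V →ₛₗ[e2] M2), Eqv hM1 hM2 D Λ ρ1 ρ2 →
      (∃ z : Fin m → M1, ρ1 v = ∑ i, e1 (w i) * z i ^ 2) →
      ∃ z : Fin m → M2, ρ2 v = ∑ i, e2 (w i) * z i ^ 2 := by
  classical
  induction m with
  | zero =>
    intro V _ _ v
    refine ⟨{v}, fun ρ1 ρ2 h hz => ⟨fun i => i.elim0, ?_⟩⟩
    obtain ⟨z, hz⟩ := hz
    rw [Finset.univ_eq_empty, Finset.sum_empty] at hz ⊢
    exact ((h.1 v (Finset.mem_singleton_self v)).zero_iff hM1 hM2).1 hz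
  | succ m ih =>
    intro V _ _ v
    have h2 : 2 ∣ D := hm (Nat.succ_ne_zero m)
    obtain ⟨Λ0, hΛ0⟩ := ih (fun _ => h2) (fun i => w i.succ) (V × E) (v, -w 0)
    obtain ⟨Λ, hΛ⟩ := one_step hM1 hM2 e1 e2 te ht1 ht2 hD hE hEv (insert ((0, 1) : V × E) Λ0)
    refine ⟨Λ, fun ρ1 ρ2 h hz => ?_⟩
    obtain ⟨z, hz⟩ := hz
    obtain ⟨x2, hx2⟩ := hΛ ρ1 ρ2 h (z 0 ^ 2)
    have h3 := hx2.1 (0, 1) (Finset.mem_insert_self _ _)
    rw [ext_apply, ext_apply, map_zero, map_zero, zero_add, zero_add, map_one, map_one, one_mul,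
      one_mul] at h3
    obtain ⟨u, hu⟩ := pow_transfer hM1 hM2 hD h2 h3 ⟨z 0, rfl⟩
    rw [Fin.sum_univ_succ] at hz
    obtain ⟨z', hz'⟩ := hΛ0 _ _ (hx2.mono (Finset.subset_insert _ _)) ⟨fun i => z i.succ, by
      rw [ext_apply, map_neg, hz]
      ring⟩
    refine ⟨Fin.cons u z', ?_⟩
    rw [Fin.sum_univ_succ, Fin.cons_zero]
    simp only [Fin.cons_succ]
    rw [← hz', ext_apply, map_neg, hu]
    ring

end diag

end QA

section

variable {p : ℕ} [hp : Fact p.Prime] {M1 M2 : Type} [Field M1] [Field M2] {σ1 : P1 p →+* M1}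
  {σ2 : P1 p →+* M2} (hM1 : Mdl p σ1) (hM2 : Mdl p σ2) {E : Type} [Field E] (e1 : E →+* M1)
  (e2 : E →+* M2) (te : E) (ht1 : e1 te = σ1 Polynomial.X) (ht2 : e2 te = σ2 Polynomial.X)

include hM1 hM2 ht1 ht2

theorem q_transfer [Infinite E] {D : ℕ} (hD : ¬ p ∣ D) (h2 : p ≠ 2 → 2 ∣ D)
    (hE : ∀ x : E, x ≠ 0 → Same σ1 σ2 D (e1 x) (e2 x))
    (hEv : ∀ x y : E, hM1.fv (e1 x) ≤ hM1.fv (e1 y) ↔ hM2.fv (e2 x) ≤ hM2.fv (e2 y))
    {V : Type} [AddCommGroup V] [Module E V] (one v : V) (s : ℕ → E) (q : PZ)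
    (hq : ∀ m ∈ q, m.2.length ≤ (if p = 2 then 1 else 2)) :
    ∃ Λ : Finset V, ∀ (ρ1 : V →ₛₗ[e1] M1) (ρ2 : V →ₛₗ[e2] M2), ρ1 one = 1 → ρ2 one = 1 →
      Eqv hM1 hM2 D Λ ρ1 ρ2 →
      (∃ x : ℕ → M1, ρ1 v = pv (σ1 Polynomial.X) (fun i => e1 (s i)) x q) →
      ∃ x : ℕ → M2, ρ2 v = pv (σ2 Polynomial.X) (fun i => e2 (s i)) x q := by
  classical
  set N := CB90.bq q with hN
  set Q := CB90.QP N te s q with hQ
  have hval : ∀ (M : Type) [Field M] (j : E →+* M) (x : ℕ → M),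
      MvPolynomial.eval₂ j (fun i : Fin N => x i) Q = pv (j te) (fun i => j (s i)) x q := by
    intro M _ j x
    rw [hQ, CB90.eval₂_QP]
    apply CB90.qv_congr
    intro m' hm' i hi
    rw [CB90.ext, dif_pos (CB90.lt_bq hm' hi)]
  have hext : ∀ (M : Type) [Field M] (j : E →+* M) (x : Fin N → M),
      MvPolynomial.eval₂ j x Q = pv (j te) (fun i => j (s i)) (CB90.ext x) q := by
    intro M _ j x
    rw [hQ, CB90.eval₂_QP]
    rfl
  have hnf : (∀ (M : Type) [Field M] (j : E →+* M) (c : M), ∃ x : Fin N → M,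
        MvPolynomial.eval₂ j x Q = c) ∨
      ∃ (m : ℕ) (w : Fin m → E) (c : E), (m ≠ 0 → 2 ∣ D) ∧ ∀ (M : Type) [Field M] (j : E →+* M),
        (∀ x : Fin N → M, ∃ z : Fin m → M,
          MvPolynomial.eval₂ j x Q = ∑ i, j (w i) * z i ^ 2 + j c) ∧
        ∀ z : Fin m → M, ∃ x : Fin N → M,
          MvPolynomial.eval₂ j x Q = ∑ i, j (w i) * z i ^ 2 + j c := by
    by_cases hp2 : p = 2
    · rcases QA.lin_nf Q (CB90.deg_QP N te s q 1 fun m' hm' => by
        have h3 := hq m' hm'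
        rwa [if_pos hp2] at h3) with h3 | ⟨c, hc⟩
      · exact Or.inl h3
      · refine Or.inr ⟨0, fun i => i.elim0, c, fun h => absurd rfl h, fun M _ j => ⟨fun x =>
          ⟨fun i => i.elim0, ?_⟩, fun z => ⟨0, ?_⟩⟩⟩
        · rw [hc M j x, Finset.univ_eq_empty, Finset.sum_empty, zero_add]
        · rw [hc M j 0, Finset.univ_eq_empty, Finset.sum_empty, zero_add]
    · have h2E : (2 : E) ≠ 0 := by
        intro h
        have h3 := hM1
        have h4 : (2 : M1) = 0 := by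
          have := congrArg e1 h
          rwa [map_ofNat, map_zero] at this
        have h5 : ((2 : ℕ) : M1) = 0 := by exact_mod_cast h4
        exact natCast_ne hM1 (fun h6 => hp2
          ((Nat.prime_dvd_prime_iff_eq hp.out Nat.prime_two).1 h6)) h5
      rcases QA.quad_nf h2E Q (CB90.deg_QP N te s q 2 fun m' hm' => by
        have h3 := hq m' hm'
        rwa [if_neg hp2] at h3) with h3 | ⟨m, w, c, h3⟩
      · exact Or.inl h3
      · exact Or.inr ⟨m, w, c, fun _ => h2 hp2, h3⟩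
  rcases hnf with hnf | ⟨m, w, c, hm, hnf⟩
  · refine ⟨∅, fun ρ1 ρ2 _ _ _ _ => ?_⟩
    obtain ⟨x, hx⟩ := hnf M2 e2 (ρ2 v)
    refine ⟨CB90.ext x, ?_⟩
    rw [← hx, hext, ht2]
  · obtain ⟨Λ, hΛ⟩ := QA.diag hM1 hM2 e1 e2 te ht1 ht2 hD hE hEv m hm w V (v - c • one)
    refine ⟨Λ, fun ρ1 ρ2 h1 h1' hΛρ hx => ?_⟩
    obtain ⟨x, hx⟩ := hx
    have hsub1 : ρ1 (v - c • one) = ρ1 v - e1 c := by
      rw [map_sub, map_smulₛₗ, h1, smul_eq_mul, mul_one]
    have hsub2 : ρ2 (v - c • one) = ρ2 v - e2 c := by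
      rw [map_sub, map_smulₛₗ, h1', smul_eq_mul, mul_one]
    obtain ⟨z, hz⟩ := (hnf M1 e1).1 fun i : Fin N => x i
    rw [hval M1 e1 x, ht1, ← hx] at hz
    obtain ⟨z2, hz2⟩ := hΛ ρ1 ρ2 hΛρ ⟨z, by rw [hsub1, hz, add_sub_cancel_right]⟩
    obtain ⟨y, hy⟩ := (hnf M2 e2).2 z2
    refine ⟨CB90.ext y, ?_⟩
    rw [hext, ht2, ← hz2, hsub2, sub_add_cancel] at hy
    exact hy.symm

end

end FO90
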