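import Pool.Agent.FO90.Emb
import Pool.Agent.FO90.QAtom
import Pool.Agent.FO90.FormT
import Pool.Agent.FO90.Los
import Pool.Agent.NS90.Main

/-!
# Prenex formulas have the same truth value in two models over a common field
-/

set_option maxSynthPendingDepth 10

namespace FO90

open FT80 BF80 LD90 NS90

namespace Co

section

variable {p : ℕ} [hp : Fact p.Prime] {M1 M2 : Type} [Field M1] [Field M2] {σ1 : P1 p →+* M1}
  {σ2 : P1 p →+* M2} {E : Type} [Field E] {V : Type} [AddCommGroup V] [Module E V]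

/-- the vector of the variable part of a monomial -/
def mv (one : V) (Z : ℕ → V) : List ℕ → V
  | [] => one
  | i :: _ => Z i

/-- the vector of a polynomial of degree at most one -/
def lv (te : E) (s : ℕ → E) (one : V) (Z : ℕ → V) (l : PZ) : V :=
  (l.map fun m => ev te s m.1 • mv one Z m.2).sum

theorem pv_lv {M : Type} [Field M] (e : E →+* M) (te : E) (s : ℕ → E) (one : V) (Z : ℕ → V)
    (ρ : V →ₛₗ[e] M) (h1 : ρ one = 1) (l : PZ) (hl : ∀ m ∈ l, m.2.length ≤ 1) :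
    pv (e te) (fun i => e (s i)) (fun i => ρ (Z i)) l = ρ (lv te s one Z l) := by
  induction l with
  | nil => simp [pv, lv]
  | cons m l ih =>
    have h2 : lv te s one Z (m :: l) = ev te s m.1 • mv one Z m.2 + lv te s one Z l := by
      simp [lv]
    rw [NS90.UpM.pv_cons, ih fun m hm => hl m (List.mem_cons_of_mem _ hm), h2, map_add,
      map_smulₛₗ, smul_eq_mul, CB90.ev_map']
    congr 2
    have h3 := hl m List.mem_cons_self
    rcases m with ⟨c, l'⟩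
    simp only at h3 ⊢
    rcases l' with _ | ⟨i, l'⟩
    · simp [mv, h1]
    · rcases l' with _ | ⟨i', l'⟩
      · simp [mv]
      · simp only [List.length_cons] at h3
        omega

/-- what is needed on the degrees -/
def DOk (p : ℕ) [Fact p.Prime] (D : ℕ) : Atm → Prop
  | (0, l, _, _) => ∀ m ∈ l, m.2.length ≤ 1
  | (1, l, l', _) => (∀ m ∈ l, m.2.length ≤ 1) ∧ ∀ m ∈ l', m.2.length ≤ 1
  | (2, l, _, F) => (∀ m ∈ l, m.2.length ≤ 1) ∧ ∃ d, d ∣ D ∧ (∀ m ∈ F, m.2.length = d) ∧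
      (d ≤ 3 ∨ ¬ Sing (HahnSeries.single 1 1 : LaurentSeries (ZMod p)) F)
  | (_ + 3, l, q, _) => (∀ m ∈ l, m.2.length ≤ 1) ∧ ∀ m ∈ q, m.2.length ≤ (if p = 2 then 1 else 2)

/-- there is a suitable number -/
theorem exists_D {n : ℕ} (m : Mat) (hm : ∀ c ∈ m, ∀ x ∈ c, Atm.Adm p n x.2) :
    ∃ D, ¬ p ∣ D ∧ (p ≠ 2 → 2 ∣ D) ∧ ∀ c ∈ m, ∀ x ∈ c, DOk p D x.2 := by
  obtain ⟨D0, hD0, hD1⟩ := NS90.UpM.list_deg (p := p) (fun (x : Bool × Atm) d => DOk p d x.2)
    m.flatten (fun x hx => by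
      obtain ⟨c, hc, hx⟩ := List.mem_flatten.1 hx
      have h := hm c hc x hx
      obtain ⟨b, k, l, l', F⟩ := x
      rcases k with _ | _ | _ | k
      · exact ⟨1, hp.out.not_dvd_one, fun m hm => (h m hm).2⟩
      · exact ⟨1, hp.out.not_dvd_one, fun m hm => (h.1 m hm).2, fun m hm => (h.2 m hm).2⟩
      · obtain ⟨h1, d, h2, h3, h4⟩ := h
        exact ⟨d, h2, fun m hm => (h1 m hm).2, d, dvd_rfl, h3, h4⟩
      · exact ⟨1, hp.out.not_dvd_one, fun m hm => (h.1 m hm).2, fun m hm => (h.2 m hm).2⟩)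
  refine ⟨D0 * (if p = 2 then 1 else 2), fun h => ?_, fun h => ?_, fun c hc x hx => ?_⟩
  · rcases hp.out.dvd_mul.1 h with h | h
    · exact hD0 h
    · split_ifs at h with h2
      · exact hp.out.not_dvd_one h
      · exact h2 ((Nat.prime_dvd_prime_iff_eq hp.out Nat.prime_two).1 h)
  · rw [if_neg h]
    exact dvd_mul_left _ _
  · obtain ⟨d, hd, -, h⟩ := hD1 x (List.mem_flatten.2 ⟨c, hc, hx⟩)
    obtain ⟨b, k, l, l', F⟩ := x
    rcases k with _ | _ | _ | k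
    · exact h
    · exact h
    · obtain ⟨h1, d', h2, h3, h4⟩ := h
      exact ⟨h1, d', (h2.trans hd).trans (dvd_mul_right _ _), h3, h4⟩
    · exact h

variable (hM1 : Mdl p σ1) (hM2 : Mdl p σ2) (e1 : E →+* M1)
  (e2 : E →+* M2) (te : E) (ht1 : e1 te = σ1 Polynomial.X) (ht2 : e2 te = σ2 Polynomial.X)

include hM1 hM2 ht1 ht2

/-- atomic conditions -/
theorem atm_iff [Infinite E] {D : ℕ} (hD : ¬ p ∣ D) (h2 : p ≠ 2 → 2 ∣ D)
    (hE : ∀ x : E, x ≠ 0 → Same σ1 σ2 D (e1 x) (e2 x))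
    (hEv : ∀ x y : E, hM1.fv (e1 x) ≤ hM1.fv (e1 y) ↔ hM2.fv (e2 x) ≤ hM2.fv (e2 y))
    (s : ℕ → E) (one : V) (Z : ℕ → V) (x : Atm) (hx : DOk p D x) :
    ∃ Λ : Finset V, ∀ (ρ1 : V →ₛₗ[e1] M1) (ρ2 : V →ₛₗ[e2] M2), ρ1 one = 1 → ρ2 one = 1 →
      Eqv hM1 hM2 D Λ ρ1 ρ2 →
      (Atm.Holds (σ1 Polynomial.X) (DV (σ1 Polynomial.X)) (fun i => e1 (s i)) (fun i => ρ1 (Z i)) x ↔
        Atm.Holds (σ2 Polynomial.X) (DV (σ2 Polynomial.X)) (fun i => e2 (s i))
          (fun i => ρ2 (Z i)) x) := by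
  classical
  have hlv : ∀ l : PZ, (∀ m ∈ l, m.2.length ≤ 1) → ∀ (ρ1 : V →ₛₗ[e1] M1) (ρ2 : V →ₛₗ[e2] M2),
      ρ1 one = 1 → ρ2 one = 1 →
      pv (σ1 Polynomial.X) (fun i => e1 (s i)) (fun i => ρ1 (Z i)) l = ρ1 (lv te s one Z l) ∧
      pv (σ2 Polynomial.X) (fun i => e2 (s i)) (fun i => ρ2 (Z i)) l = ρ2 (lv te s one Z l) := by
    intro l hl ρ1 ρ2 h1 h2
    constructor
    · rw [← ht1]
      exact pv_lv e1 te s one Z ρ1 h1 l hl
    · rw [← ht2]
      exact pv_lv e2 te s one Z ρ2 h2 l hl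
  obtain ⟨k, l, l', F⟩ := x
  rcases k with _ | _ | _ | k
  · refine ⟨{lv te s one Z l}, fun ρ1 ρ2 h1 h2 hg => ?_⟩
    obtain ⟨a1, a2⟩ := hlv l hx ρ1 ρ2 h1 h2
    show pv _ _ _ l = 0 ↔ pv _ _ _ l = 0
    rw [a1, a2]
    exact (hg.1 _ (Finset.mem_singleton_self _)).zero_iff hM1 hM2
  · refine ⟨{lv te s one Z l, lv te s one Z l'}, fun ρ1 ρ2 h1 h2 hg => ?_⟩
    obtain ⟨a1, a2⟩ := hlv l hx.1 ρ1 ρ2 h1 h2
    obtain ⟨b1, b2⟩ := hlv l' hx.2 ρ1 ρ2 h1 h2
    show DV _ (pv _ _ _ l) (pv _ _ _ l') ↔ DV _ (pv _ _ _ l) (pv _ _ _ l')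
    rw [hM1.DV_iff, hM2.DV_iff, a1, a2, b1, b2]
    exact hg.2 _ (Finset.mem_insert_of_mem (Finset.mem_singleton_self _)) _
      (Finset.mem_insert_self _ _)
  · refine ⟨{lv te s one Z l}, fun ρ1 ρ2 h1 h2 hg => ?_⟩
    obtain ⟨a1, a2⟩ := hlv l hx.1 ρ1 ρ2 h1 h2
    obtain ⟨-, d, hd, h3, h4⟩ := hx
    show (∃ y : ℕ → M1, pv _ _ _ l = _) ↔ (∃ y : ℕ → M2, pv _ _ _ l = _)
    rw [a1, a2]
    have h5 := hg.1 _ (Finset.mem_singleton_self _)
    exact ⟨form_transfer hM1 hM2 hD F hd h3 h4 h5, form_transfer hM2 hM1 hD F hd h3 h4 h5.symm⟩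
  · obtain ⟨Λa, ha⟩ := q_transfer hM1 hM2 e1 e2 te ht1 ht2 hD h2 hE hEv one (lv te s one Z l) s l'
      hx.2
    obtain ⟨Λb, hb⟩ := q_transfer hM2 hM1 e2 e1 te ht2 ht1 hD h2 (fun x hx => (hE x hx).symm)
      (fun x y => (hEv x y).symm) one (lv te s one Z l) s l' hx.2
    refine ⟨Λa ∪ Λb, fun ρ1 ρ2 h1 h2 hg => ?_⟩
    obtain ⟨a1, a2⟩ := hlv l hx.1 ρ1 ρ2 h1 h2
    show (∃ y : ℕ → M1, pv _ _ _ l = _) ↔ (∃ y : ℕ → M2, pv _ _ _ l = _)
    rw [a1, a2]
    exact ⟨ha ρ1 ρ2 h1 h2 (hg.mono Finset.subset_union_left),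
      hb ρ2 ρ1 h2 h1 (hg.mono Finset.subset_union_right).symm⟩

/-- quantifier-free formulas -/
theorem mat_iff [Infinite E] {D : ℕ} (hD : ¬ p ∣ D) (h2 : p ≠ 2 → 2 ∣ D)
    (hE : ∀ x : E, x ≠ 0 → Same σ1 σ2 D (e1 x) (e2 x))
    (hEv : ∀ x y : E, hM1.fv (e1 x) ≤ hM1.fv (e1 y) ↔ hM2.fv (e2 x) ≤ hM2.fv (e2 y))
    (s : ℕ → E) (one : V) (Z : ℕ → V) (m : Mat) (hm : ∀ c ∈ m, ∀ x ∈ c, DOk p D x.2) :
    ∃ Λ : Finset V, ∀ (ρ1 : V →ₛₗ[e1] M1) (ρ2 : V →ₛₗ[e2] M2), ρ1 one = 1 → ρ2 one = 1 →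
      Eqv hM1 hM2 D Λ ρ1 ρ2 →
      (MHolds (σ1 Polynomial.X) (DV (σ1 Polynomial.X)) (fun i => e1 (s i)) (fun i => ρ1 (Z i)) m ↔
        MHolds (σ2 Polynomial.X) (DV (σ2 Polynomial.X)) (fun i => e2 (s i))
          (fun i => ρ2 (Z i)) m) := by
  classical
  obtain ⟨Λ, hΛ⟩ := NS90.UpM.list_fin (fun (x : Bool × Atm) (T : Finset V) =>
      ∀ (ρ1 : V →ₛₗ[e1] M1) (ρ2 : V →ₛₗ[e2] M2), ρ1 one = 1 → ρ2 one = 1 →
        Eqv hM1 hM2 D T ρ1 ρ2 →
        (Atm.Holds (σ1 Polynomial.X) (DV (σ1 Polynomial.X)) (fun i => e1 (s i))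
            (fun i => ρ1 (Z i)) x.2 ↔
          Atm.Holds (σ2 Polynomial.X) (DV (σ2 Polynomial.X)) (fun i => e2 (s i))
            (fun i => ρ2 (Z i)) x.2))
    (fun x T T' hT h ρ1 ρ2 h1 h2 hg => h ρ1 ρ2 h1 h2 (hg.mono hT)) m.flatten (fun x hx => by
      obtain ⟨c, hc, hx⟩ := List.mem_flatten.1 hx
      exact atm_iff hM1 hM2 e1 e2 te ht1 ht2 hD h2 hE hEv s one Z x.2 (hm c hc x hx))
  refine ⟨Λ, fun ρ1 ρ2 h1 h2 hg => ?_⟩
  have h3 : ∀ c ∈ m, ∀ x ∈ c, _ := fun c hc x hx =>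
    hΛ x (List.mem_flatten.2 ⟨c, hc, hx⟩) ρ1 ρ2 h1 h2 hg
  constructor
  · rintro ⟨c, hc, h⟩
    exact ⟨c, hc, fun x hx => (h x hx).trans (h3 c hc x hx)⟩
  · rintro ⟨c, hc, h⟩
    exact ⟨c, hc, fun x hx => (h x hx).trans (h3 c hc x hx).symm⟩

end

section

variable {p : ℕ} [hp : Fact p.Prime] {M1 M2 : Type} [Field M1] [Field M2] {σ1 : P1 p →+* M1}
  {σ2 : P1 p →+* M2} {E : Type} [Field E]
  (hM1 : Mdl p σ1) (hM2 : Mdl p σ2) (e1 : E →+* M1)
  (e2 : E →+* M2) (te : E) (ht1 : e1 te = σ1 Polynomial.X) (ht2 : e2 te = σ2 Polynomial.X)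

omit hp in
theorem ext_update {M : Type} [Field M] {V : Type} [AddCommGroup V] [Module E V] (e : E →+* M)
    (ρ : V →ₛₗ[e] M) (w : M) (Z : ℕ → V) (i : ℕ) :
    (fun j => ext e ρ w (Function.update (fun j => ((Z j, 0) : V × E)) i (0, 1) j)) =
      Function.update (fun j => ρ (Z j)) i w := by
  funext j
  by_cases h : j = i
  · subst h
    rw [Function.update_self, Function.update_self, ext_apply, map_zero, map_one, one_mul,
      zero_add]
  · rw [Function.update_of_ne h, Function.update_of_ne h, ext_apply, map_zero, zero_mul, add_zero]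

include hM1 hM2 ht1 ht2

/-- prenex formulas -/
theorem holds_iff [Infinite E] {D : ℕ} (hD : ¬ p ∣ D) (h2 : p ≠ 2 → 2 ∣ D)
    (hE : ∀ x : E, x ≠ 0 → Same σ1 σ2 D (e1 x) (e2 x))
    (hEv : ∀ x y : E, hM1.fv (e1 x) ≤ hM1.fv (e1 y) ↔ hM2.fv (e2 x) ≤ hM2.fv (e2 y))
    (s : ℕ → E) (m : Mat) (hm : ∀ c ∈ m, ∀ x ∈ c, DOk p D x.2) (π : List (Bool × ℕ)) :
    ∀ (V : Type) [AddCommGroup V] [Module E V] (one : V) (Z : ℕ → V),
    ∃ Λ : Finset V, ∀ (ρ1 : V →ₛₗ[e1] M1) (ρ2 : V →ₛₗ[e2] M2), ρ1 one = 1 → ρ2 one = 1 →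
      Eqv hM1 hM2 D Λ ρ1 ρ2 →
      (Holds (σ1 Polynomial.X) (DV (σ1 Polynomial.X)) (fun i => e1 (s i)) m π
          (fun i => ρ1 (Z i)) ↔
        Holds (σ2 Polynomial.X) (DV (σ2 Polynomial.X)) (fun i => e2 (s i)) m π
          (fun i => ρ2 (Z i))) := by
  classical
  induction π with
  | nil =>
    intro V _ _ one Z
    exact mat_iff hM1 hM2 e1 e2 te ht1 ht2 hD h2 hE hEv s one Z m hm
  | cons x π ih =>
    intro V _ _ one Z
    obtain ⟨b, i⟩ := x
    obtain ⟨Λ, hΛ⟩ := ih (V × E) (one, 0) (Function.update (fun j => ((Z j, 0) : V × E)) i (0, 1))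
    obtain ⟨Λa, ha⟩ := one_step hM1 hM2 e1 e2 te ht1 ht2 hD hE hEv Λ
    obtain ⟨Λb, hb⟩ := one_step hM2 hM1 e2 e1 te ht2 ht1 hD (fun x hx => (hE x hx).symm)
      (fun x y => (hEv x y).symm) Λ
    refine ⟨Λa ∪ Λb, fun ρ1 ρ2 h1 h2 hg => ?_⟩
    have o1 : ∀ w, ext e1 ρ1 w (one, 0) = 1 := fun w => by
      rw [ext_apply, map_zero, zero_mul, add_zero, h1]
    have o2 : ∀ w, ext e2 ρ2 w (one, 0) = 1 := fun w => by
      rw [ext_apply, map_zero, zero_mul, add_zero, h2]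
    have key : ∀ w1 w2, Eqv hM1 hM2 D Λ (ext e1 ρ1 w1) (ext e2 ρ2 w2) →
        (Holds (σ1 Polynomial.X) (DV (σ1 Polynomial.X)) (fun i => e1 (s i)) m π
          (Function.update (fun j => ρ1 (Z j)) i w1) ↔
        Holds (σ2 Polynomial.X) (DV (σ2 Polynomial.X)) (fun i => e2 (s i)) m π
          (Function.update (fun j => ρ2 (Z j)) i w2)) := by
      intro w1 w2 h
      have h3 := hΛ _ _ (o1 w1) (o2 w2) h
      rwa [ext_update, ext_update] at h3
    have fw : ∀ w1, ∃ w2, Eqv hM1 hM2 D Λ (ext e1 ρ1 w1) (ext e2 ρ2 w2) :=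
      ha ρ1 ρ2 (hg.mono Finset.subset_union_left)
    have bw : ∀ w2, ∃ w1, Eqv hM1 hM2 D Λ (ext e1 ρ1 w1) (ext e2 ρ2 w2) := by
      intro w2
      obtain ⟨w1, h⟩ := hb ρ2 ρ1 (hg.mono Finset.subset_union_right).symm w2
      exact ⟨w1, h.symm⟩
    cases b with
    | true =>
      constructor
      · rintro ⟨w1, h⟩
        obtain ⟨w2, h3⟩ := fw w1
        exact ⟨w2, (key w1 w2 h3).1 h⟩
      · rintro ⟨w2, h⟩
        obtain ⟨w1, h3⟩ := bw w2
        exact ⟨w1, (key w1 w2 h3).2 h⟩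
    | false =>
      constructor
      · intro h w2
        obtain ⟨w1, h3⟩ := bw w2
        exact (key w1 w2 h3).1 (h w1)
      · intro h w1
        obtain ⟨w2, h3⟩ := fw w1
        exact (key w1 w2 h3).2 (h w2)

/-- two models over a field closed under roots -/
theorem transfer [Infinite E]
    (hroot : ∀ (z : M1) (n : ℕ), n ≠ 0 → z ^ n ∈ e1.fieldRange → z ∈ e1.fieldRange)
    (hquad : ∀ c y : M1, c ∈ e1.fieldRange → y ^ 2 + y = σ1 Polynomial.X * c ^ 2 →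
      y ∈ e1.fieldRange) {n : ℕ}
    (s : ℕ → E) (m : Mat) (hm : ∀ c ∈ m, ∀ x ∈ c, Atm.Adm p n x.2) (π : List (Bool × ℕ)) :
    Holds (σ1 Polynomial.X) (DV (σ1 Polynomial.X)) (fun i => e1 (s i)) m π (fun _ => 0) ↔
      Holds (σ2 Polynomial.X) (DV (σ2 Polynomial.X)) (fun i => e2 (s i)) m π (fun _ => 0) := by
  obtain ⟨D, hD, h2, hm'⟩ := exists_D m hm
  have hE : ∀ x : E, x ≠ 0 → Same σ1 σ2 D (e1 x) (e2 x) :=
    emb_same hM1 hM2 e1 e2 te ht1 ht2 hroot hD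
  have hEv := emb_fv hM1 hM2 e1 e2 te ht1 ht2 hquad
  obtain ⟨Λ, hΛ⟩ := holds_iff hM1 hM2 e1 e2 te ht1 ht2 hD h2 hE hEv s m hm' π E 1 (fun _ => 0)
  have h3 := hΛ e1.toSemilinearMap e2.toSemilinearMap (map_one e1) (map_one e2)
    ⟨fun x _ => ?_, fun x _ y _ => hEv x y⟩
  · have z1 : (fun _ : ℕ => e1.toSemilinearMap (0 : E)) = fun _ => (0 : M1) :=
      funext fun _ => map_zero e1
    have z2 : (fun _ : ℕ => e2.toSemilinearMap (0 : E)) = fun _ => (0 : M2) :=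
      funext fun _ => map_zero e2
    rw [z1, z2] at h3
    exact h3
  · by_cases h0 : x = 0
    · left
      rw [h0]
      exact ⟨map_zero e1, map_zero e2⟩
    · exact Or.inr (hE x h0)

end

section core

variable {p : ℕ} [hp : Fact p.Prime] {M : Type} [Field M] {σ : P1 p →+* M}

theorem atm_congr_s {R : Type*} [CommRing R] {n : ℕ} (t : R) (r : R → R → Prop) {s s' : ℕ → R}
    (h : ∀ i ≤ n, s i = s' i) (z : ℕ → R) (x : Atm) (hx : Atm.Adm p n x) :
    Atm.Holds t r s z x ↔ Atm.Holds t r s' z x := by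
  obtain ⟨k, l, l', F⟩ := x
  rcases k with _ | _ | _ | k
  · show pv _ _ _ l = 0 ↔ pv _ _ _ l = 0
    rw [pv_congr_s t h z l hx]
  · show r (pv _ _ _ l) (pv _ _ _ l') ↔ r (pv _ _ _ l) (pv _ _ _ l')
    rw [pv_congr_s t h z l hx.1, pv_congr_s t h z l' hx.2]
  · show (∃ y : ℕ → R, pv _ _ _ l = _) ↔ (∃ y : ℕ → R, pv _ _ _ l = _)
    rw [pv_congr_s t h z l hx.1]
  · show (∃ y : ℕ → R, pv _ _ _ l = _) ↔ (∃ y : ℕ → R, pv _ _ _ l = _)
    rw [pv_congr_s t h z l hx.1]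
    exact exists_congr fun y => by rw [pv_congr_s t h y l' hx.2]

theorem holds_congr_s {R : Type*} [CommRing R] {n : ℕ} (t : R) (r : R → R → Prop) {s s' : ℕ → R}
    (h : ∀ i ≤ n, s i = s' i) (m : Mat) (hm : ∀ c ∈ m, ∀ x ∈ c, Atm.Adm p n x.2)
    (π : List (Bool × ℕ)) : ∀ z : ℕ → R, Holds t r s m π z ↔ Holds t r s' m π z := by
  induction π with
  | nil =>
    intro z
    show MHolds t r s z m ↔ MHolds t r s' z m
    constructor
    · rintro ⟨c, hc, h3⟩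
      exact ⟨c, hc, fun x hx => (h3 x hx).trans (atm_congr_s t r h z x.2 (hm c hc x hx))⟩
    · rintro ⟨c, hc, h3⟩
      exact ⟨c, hc, fun x hx => (h3 x hx).trans (atm_congr_s t r h z x.2 (hm c hc x hx)).symm⟩
  | cons x π ih =>
    intro z
    obtain ⟨b, i⟩ := x
    cases b with
    | true => exact exists_congr fun x => ih _
    | false => exact forall_congr' fun x => ih _

theorem base_congr {R : Type*} [CommRing R] (t : R) {s s' : ℕ → R} (B : List PL)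
    (aB : ∀ i b, B[i]? = some b → Vars (i + 1) b) (hs : ∀ i ≤ B.length, s i = s' i)
    (hB : Base t B s) : Base t B s' := by
  intro i b hb
  have hi : i + 1 ≤ B.length := by
    have h7 : i < B.length := (List.getElem?_eq_some_iff.1 hb).1
    omega
  obtain ⟨h4, w, h5⟩ := hB i b hb
  have h6 : ∀ j ≤ i + 1, s j = s' j := fun j hj => hs j (hj.trans hi)
  refine ⟨?_, w, ?_⟩
  · rw [← CB90.ev_congr (aB i b hb) t h6]
    exact h4
  · rw [← CB90.ev_congr (aB i b hb) t (s := Function.update s (i + 1) w)]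
    · exact h5
    · intro j hj
      by_cases hji : j = i + 1
      · subst hji
        rw [Function.update_self, Function.update_self]
      · rw [Function.update_of_ne hji, Function.update_of_ne hji]
        exact h6 j hj

/-- the formula holds in a model if and only if it holds in `k0` -/
theorem psol_k0 (hM : Mdl p σ) (a : Inp) (ha : Adm p a) :
    PSol (σ Polynomial.X) (DV (σ Polynomial.X)) a ↔
      PSol (sig0 p Polynomial.X) (DV (sig0 p Polynomial.X)) a := by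
  obtain ⟨B, π, m⟩ := a
  obtain ⟨haB, ham⟩ := ha
  have hσinf : ∀ E : Subfield M, (∀ f, σ f ∈ E) → Infinite E := by
    intro E hE
    have hinj : Function.Injective (σ.codRestrict E hE) := by
      intro u v huv
      exact hM.σ_injective (congrArg Subtype.val huv)
    exact Infinite.of_injective _ hinj
  have hk0 : Mdl p (sig0 p) := mdl_k0
  have hk0inf : Infinite (k0 p) := Infinite.of_injective _ hk0.σ_injective
  obtain ⟨j, hj, hj2, -⟩ := hM.exists_j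
  constructor
  · rintro ⟨s0, hB0, hH0⟩
    obtain ⟨s, hs⟩ : ∃ s : ℕ → M, s = fun i => if i ≤ B.length then s0 i else 0 := ⟨_, rfl⟩
    have hss : ∀ i ≤ B.length, s0 i = s i := fun i hi => by
      simp only [hs, if_pos hi]
    have hs0 : ∀ i, B.length < i → s i = 0 := fun i hi => by
      simp only [hs, if_neg (not_le.2 hi)]
    have hB : Base (σ Polynomial.X) B s := base_congr _ B haB hss hB0
    have hH : Holds (σ Polynomial.X) (DV (σ Polynomial.X)) s m π (fun _ => 0) :=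
      (holds_congr_s _ _ hss m ham π _).1 hH0
    by_cases h0 : BF80.Alg1 σ (s 0)
    · -- everything is algebraic over `F_p(t)`
      have hmem : ∀ i, s i ∈ algField σ := by
        intro i
        by_cases hi : i ≤ B.length
        · exact CB90.base_mem σ (σ Polynomial.X) (CI.map_mem_algField σ _) B s h0 haB hB i hi
        · rw [hs0 i (not_le.1 hi)]
          exact zero_mem _
      have hE' : ∀ f, σ f ∈ algField σ := fun f => (hj2 _).2 ⟨_, hj f⟩
      have hinf : Infinite (algField σ) := hσinf _ hE'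
      obtain ⟨ι, hι⟩ := BF80.CI.exists_lift_hom (algField σ).subtype j j.injective
        (fun x => (hj2 _).1 x.2)
      have h3 : ι ⟨σ Polynomial.X, hE' _⟩ = sig0 p Polynomial.X := by
        apply j.injective
        rw [hι, hj]
        rfl
      obtain ⟨S, rfl⟩ : ∃ S : ℕ → algField σ, (fun i => (algField σ).subtype (S i)) = s :=
        ⟨fun i => ⟨s i, hmem i⟩, rfl⟩
      refine ⟨fun i => ι (S i), ?_, ?_⟩
      · have h4 := base_transfer (algField σ).subtype ι ⟨σ Polynomial.X, hE' _⟩ B S hB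
        rwa [h3] at h4
      · exact (transfer hM hk0 (algField σ).subtype ι ⟨σ Polynomial.X, hE' _⟩ rfl h3
          (fun z n hn hz => by
            rw [Subfield.fieldRange_subtype] at hz ⊢
            exact OP90.root_mem σ hn hz)
          (fun c y hc h => by
            rw [Subfield.fieldRange_subtype] at hc ⊢
            exact DS90.Dn.quad_mem (hE' _) hc h) S m ham π).1 hH
    · -- the parameter is transcendental
      apply psol_of_up
      obtain ⟨x0, hx0⟩ : ∃ x0, x0 = s 0 := ⟨_, rfl⟩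
      rw [← hx0] at h0
      obtain ⟨ι, hι, hsA, -⟩ := starC hM x0 h0 ∅ Set.countable_empty
      obtain ⟨htA, htι⟩ := hι Polynomial.X
      have hE' : ∀ f, σ f ∈ algField (ev1 σ x0) := fun f => (hι f).1
      have hinf : Infinite (algField (ev1 σ x0)) := hσinf _ hE'
      have hmem : ∀ i, s i ∈ algField (ev1 σ x0) := by
        intro i
        by_cases hi : i ≤ B.length
        · exact CB90.base_mem (ev1 σ x0) (σ Polynomial.X) htA B s
            (by rw [← hx0]; exact x_mem_acl x0) haB hB i hi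
        · rw [hs0 i (not_le.1 hi)]
          exact zero_mem _
      have hU : Mdl p ((diag (k0 p)).comp (sig0 p)) := mdl_up hk0
      clear hs0 hss hs hx0
      obtain ⟨S, rfl⟩ : ∃ S : ℕ → algField (ev1 σ x0),
          (fun i => (algField (ev1 σ x0)).subtype (S i)) = s :=
        ⟨fun i => ⟨s i, hmem i⟩, rfl⟩
      refine ⟨fun i => ι (S i), ?_, ?_⟩
      · have h4 := base_transfer (algField (ev1 σ x0)).subtype ι ⟨σ Polynomial.X, htA⟩ B S hB
        rwa [htι] at h4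
      · exact (transfer hM hU (algField (ev1 σ x0)).subtype ι ⟨σ Polynomial.X, htA⟩ rfl htι
          (fun z n hn hz => by
            rw [Subfield.fieldRange_subtype] at hz ⊢
            exact OP90.root_mem _ hn hz)
          (fun c y hc h => by
            rw [Subfield.fieldRange_subtype] at hc ⊢
            exact DS90.Dn.quad_mem htA hc h) S m ham π).1 hH
  · rintro ⟨s, hB, hH⟩
    refine ⟨fun i => j (s i), ?_, ?_⟩
    · have h4 := CB90.Base.map j j.injective hB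
      rwa [hj] at h4
    · exact (transfer hk0 hM (RingHom.id (k0 p)) j (sig0 p Polynomial.X) rfl (hj _)
        (fun z n hn hz => ⟨z, rfl⟩) (fun c y hc h => ⟨y, rfl⟩) s m ham π).1 hH

end core

end Co

end FO90
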