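import Pool.Agent.FO90.Defs
import Pool.Agent.NS90.Dec

/-!
# The decision wrapper for first-order conditions over a base of dimension one

The problem is translated into a sentence of the first-order language of rings with a constant for
`t`. The variable `x_i` of `LD90` is the variable `2 * i + 3` of the formula; the base variable
`s_i` is `x_(8 * i)`, the variable `z_i` is `x_(8 * i + 1)`, the witness for the polynomial `B_i` is
`x_(8 * i + 2)`; the values of a form or of a polynomial are described with the variables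
`x_(8 * k + 3)` or `x_(8 * k + 4)`, and the divisibility with `x_5` and `x_6`. All variables other
than those of the base and `z_i` are quantified in the translation of the atomic conditions.
-/

set_option maxSynthPendingDepth 10
set_option autoImplicit false

open Polynomial

namespace FO90

open FT80 BF80 LD90 NS90

namespace De

open CB90.De (ren mulP)
open DS90.De (vs vz vu pq neg)
open LD90.Wr (ZF exc)

/-! ### Closures over a class of variables -/

/-- `∃ x_(w (N-1)) … ∃ x_(w 0)` -/
def exW (w : ℕ → ℕ) (φ : FR) : ℕ → FR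
  | 0 => φ
  | N + 1 => .ex (w N) (exW w φ N)

theorem sat_exW {α : Type} (R : RS α) (w : ℕ → ℕ) (φ : FR) (N : ℕ) : ∀ e : ℕ → α,
    Sat R e (exW w φ N) ↔ ∃ e' : ℕ → α, (∀ v, (∀ k < N, v ≠ w k) → e' v = e v) ∧ Sat R e' φ := by
  induction N with
  | zero =>
    intro e
    constructor
    · intro h
      exact ⟨e, fun _ _ => rfl, h⟩
    · rintro ⟨e', h1, h2⟩
      rw [show e' = e from funext fun i => h1 i (by simp)] at h2
      exact h2
  | succ N ih =>
    intro e
    simp only [exW, Sat, ih]
    constructor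
    · rintro ⟨a, e', h1, h2⟩
      refine ⟨e', fun v hv => ?_, h2⟩
      rw [h1 v fun k hk => hv k (by omega), Function.update_of_ne (hv N (by omega))]
    · rintro ⟨e', h1, h2⟩
      refine ⟨e' (w N), e', fun v hv => ?_, h2⟩
      by_cases h : v = w N
      · subst h
        rw [Function.update_self]
      · rw [Function.update_of_ne h]
        refine h1 v fun k hk => ?_
        rcases Nat.lt_succ_iff_lt_or_eq.1 hk with hk | rfl
        · exact hv k hk
        · exact h

theorem sat_exW_code {α : Type} (R : RS α) (w : ℕ → ℕ) (hw : ∀ k, k ≤ w k) (φ : FR)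
    (e : ℕ → α) : Sat R e (exW w φ (φ.code + 1)) ↔
      ∃ e' : ℕ → α, (∀ v, (∀ k, v ≠ w k) → e' v = e v) ∧ Sat R e' φ := by
  rw [sat_exW]
  constructor
  · rintro ⟨e', h1, h2⟩
    exact ⟨e', fun v hv => h1 v fun k _ => hv k, h2⟩
  · rintro ⟨e', h1, h2⟩
    refine ⟨fun v => if v < φ.code + 1 then e' v else e v, fun v hv => ?_, ?_⟩
    · by_cases h : v < φ.code + 1
      · simp only [h, if_true]
        refine h1 v fun k hk => ?_
        have h3 := hw k
        exact hv k (by omega) hk
      · simp only [h, if_false]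
    · rw [Asm.sat_dep_code R φ _ e' (fun i hi => if_pos hi)]
      exact h2

/-! ### The translation -/

/-- the variables `z_i` of the formula -/
def Z (i : ℕ) : ℕ := 16 * i + 5

/-- `y_k` -/
def vy (k : ℕ) : ℕ := 8 * k + 3

/-- `x_k` -/
def vx (k : ℕ) : ℕ := 8 * k + 4

/-- the variables `y_k` of the formula -/
def Y (k : ℕ) : ℕ := 16 * k + 9

/-- the variables `x_k` of the formula -/
def W (k : ℕ) : ℕ := 16 * k + 11

/-- `l(s, z)` is a value of the form `F` -/
def fE (p : ℕ) (l : PZ) (F : PL) : PL := pq vz l ++ neg p (ren vy F)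

/-- `l(s, z)` is a value of `q(s, ·)` -/
def qE (p : ℕ) (l q : PZ) : PL := pq vz l ++ neg p (pq vx q)

/-- the quotient -/
def cE (p : ℕ) (l l' : PZ) : PL := mulP [(0, [5])] (pq vz l) ++ neg p (pq vz l')

/-- the quotient is in the valuation ring -/
def dE (p : ℕ) : PL := [(0, [6, 6]), (0, [6])] ++ neg p [(1, [5, 5])]

/-- the formula of an atomic condition -/
def AF (p : ℕ) : Atm → FR
  | (0, l, _, _) => ZF (pq vz l)
  | (1, l, l', _) => .ex 13 (.ex 15 (.and (ZF (cE p l l')) (ZF (dE p))))
  | (2, l, _, F) => exW Y (ZF (fE p l F)) ((ZF (fE p l F)).code + 1)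
  | (_ + 3, l, q, _) => exW W (ZF (qE p l q)) ((ZF (qE p l q)).code + 1)

/-- the formula of an atomic condition or its negation -/
def LF (p : ℕ) (x : Bool × Atm) : FR := if x.1 = true then AF p x.2 else .neg (AF p x.2)

/-- the formula of a conjunction -/
def JF (p : ℕ) (c : List (Bool × Atm)) : FR := c.foldr (fun x φ => .and (LF p x) φ) (.eq 0 0)

/-- the formula of a disjunction of conjunctions -/
def MF (p : ℕ) (m : Mat) : FR :=
  m.foldr (fun c φ => .neg (.and (.neg (JF p c)) (.neg φ))) (.neg (.eq 0 0))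

/-- a quantifier -/
def QF (x : Bool × ℕ) (φ : FR) : FR :=
  if x.1 = true then .ex (Z x.2) φ else .neg (.ex (Z x.2) (.neg φ))

/-- the formula with a prefix -/
def PF (p : ℕ) (m : Mat) (π : List (Bool × ℕ)) : FR := π.foldr QF (MF p m)

/-- the variables `z_i` for `i < N` are zero -/
def ZZ (N : ℕ) : FR := N.rec (.eq 0 0) fun i φ => .and φ (.zero (Z i))

/-- the formula of the base -/
def BF (B : List PL) (n : ℕ) : FR := n.rec (.eq 0 0) fun i φ =>
  .and φ (.and (ZF (ren vs (B.getD i [])))
    (.ex (16 * i + 7) (.neg (ZF (ren (vu i) (B.getD i []))))))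

/-- the formula with free variables -/
def TF (p : ℕ) (a : Inp) : FR :=
  .and (.tt 1) (.and (BF a.1 a.1.length)
    (.and (ZZ ((PF p a.2.2 a.2.1).code + 1)) (PF p a.2.2 a.2.1)))

section sem

variable {R : Type} [CommRing R] {p : ℕ} (hp : 1 ≤ p) (hR : (p : R) = 0)

/-- the base variables of a valuation -/
abbrev S (e : ℕ → R) : ℕ → R := fun i => e (16 * i + 3)

/-- the auxiliary variables of a valuation -/
abbrev U (e : ℕ → R) : ℕ → R := fun i => e (Z i)

theorem ev_pq' (t : R) (X : ℕ → R) (w : ℕ → ℕ) (l : PZ) :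
    ev t X (pq w l) = pv t (fun i => X (vs i)) (fun i => X (w i)) l :=
  DS90.De.ev_pq t X w l

theorem vsE (e : ℕ → R) : (fun i => (fun i => e (2 * i + 3)) (vs i)) = S e := by
  funext i
  show e (2 * (8 * i) + 3) = e (16 * i + 3)
  congr 1
  omega

theorem vzE (e : ℕ → R) : (fun i => (fun i => e (2 * i + 3)) (vz i)) = U e := by
  funext i
  show e (2 * (8 * i + 1) + 3) = e (16 * i + 5)
  congr 1
  omega

theorem vyE (e : ℕ → R) : (fun i => (fun i => e (2 * i + 3)) (vy i)) = fun k => e (Y k) := by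
  funext i
  show e (2 * (8 * i + 3) + 3) = e (16 * i + 9)
  congr 1
  omega

theorem vxE (e : ℕ → R) : (fun i => (fun i => e (2 * i + 3)) (vx i)) = fun k => e (W k) := by
  funext i
  show e (2 * (8 * i + 4) + 3) = e (16 * i + 11)
  congr 1
  omega

include hp hR in
theorem sat_AF (a : Atm) (e : ℕ → R) : Sat (ringRS (e 1)) e (AF p a) ↔
    Atm.Holds (e 1) (DV (e 1)) (S e) (U e) a := by
  obtain ⟨k, l, l', F⟩ := a
  rcases k with _ | _ | _ | k
  · show Sat (ringRS (e 1)) e (ZF (pq vz l)) ↔ pv (e 1) (S e) (U e) l = 0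
    rw [Wr.sat_ZF, ev_pq', vsE, vzE]
  · have hev : ∀ e' : ℕ → R, e' 1 = e 1 →
        (Sat (ringRS (e 1)) e' (.and (ZF (cE p l l')) (ZF (dE p))) ↔
          e' 13 * pv (e 1) (S e') (U e') l = pv (e 1) (S e') (U e') l' ∧
          e' 15 ^ 2 + e' 15 = e 1 * e' 13 ^ 2) := by
      intro e' he
      have h1 : ∀ X : ℕ → R, ev (e 1) X [((0 : ℕ), [5])] = X 5 := by
        intro X
        simp [ev]
      have h2 : ∀ X : ℕ → R, ev (e 1) X [((0 : ℕ), [6, 6]), ((0 : ℕ), [6])] = X 6 ^ 2 + X 6 := by
        intro X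
        simp [ev]
        ring
      have h3 : ∀ X : ℕ → R, ev (e 1) X [((1 : ℕ), [5, 5])] = e 1 * X 5 ^ 2 := by
        intro X
        simp [ev]
        ring
      show Sat (ringRS (e 1)) e' (ZF (cE p l l')) ∧ Sat (ringRS (e 1)) e' (ZF (dE p)) ↔ _
      rw [Wr.sat_ZF, Wr.sat_ZF, he, cE, dE, DS90.De.ev_append, DS90.De.ev_append,
        DS90.De.ev_neg _ hp hR, DS90.De.ev_neg _ hp hR, CB90.De.ev_mulP, ev_pq', ev_pq', vsE,
        vzE, h1, h2, h3, ← sub_eq_add_neg, ← sub_eq_add_neg, sub_eq_zero, sub_eq_zero]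
    show (∃ c d : R, Sat (ringRS (e 1)) (Function.update (Function.update e 13 c) 15 d)
      (.and (ZF (cE p l l')) (ZF (dE p)))) ↔
      ∃ c : R, (∃ y : R, y ^ 2 + y = e 1 * c ^ 2) ∧
        c * pv (e 1) (S e) (U e) l = pv (e 1) (S e) (U e) l'
    have h4 : ∀ c d : R, S (Function.update (Function.update e 13 c) 15 d) = S e := by
      intro c d
      funext i
      simp only [S]
      rw [Function.update_of_ne (by omega), Function.update_of_ne (by omega)]
    have h5 : ∀ c d : R, U (Function.update (Function.update e 13 c) 15 d) = U e := by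
      intro c d
      funext i
      simp only [U, Z]
      rw [Function.update_of_ne (by omega), Function.update_of_ne (by omega)]
    have h6 : ∀ c d : R, Function.update (Function.update e 13 c) 15 d 13 = c := by
      intro c d
      rw [Function.update_of_ne (by omega), Function.update_self]
    have h7 : ∀ c d : R, Function.update (Function.update e 13 c) 15 d 15 = d := by
      intro c d
      rw [Function.update_self]
    have h8 : ∀ c d : R, Function.update (Function.update e 13 c) 15 d 1 = e 1 := by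
      intro c d
      rw [Function.update_of_ne (by omega), Function.update_of_ne (by omega)]
    constructor
    · rintro ⟨c, d, h⟩
      rw [hev _ (h8 c d), h4, h5, h6, h7] at h
      exact ⟨c, ⟨d, h.2⟩, h.1⟩
    · rintro ⟨c, ⟨d, hd⟩, hc⟩
      refine ⟨c, d, ?_⟩
      rw [hev _ (h8 c d), h4, h5, h6, h7]
      exact ⟨hc, hd⟩
  · show Sat (ringRS (e 1)) e (exW Y (ZF (fE p l F)) ((ZF (fE p l F)).code + 1)) ↔
      ∃ y : ℕ → R, pv (e 1) (S e) (U e) l = ev (e 1) y F
    rw [sat_exW_code _ Y (fun k => by simp only [Y]; omega)]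
    have hev : ∀ e' : ℕ → R, e' 1 = e 1 → (Sat (ringRS (e 1)) e' (ZF (fE p l F)) ↔
        pv (e 1) (S e') (U e') l = ev (e 1) (fun k => e' (Y k)) F) := by
      intro e' he
      rw [Wr.sat_ZF, he, fE, DS90.De.ev_append, DS90.De.ev_neg _ hp hR, CB90.De.ev_ren, ev_pq',
        vsE, vzE, vyE, ← sub_eq_add_neg, sub_eq_zero]
    constructor
    · rintro ⟨e', h1, h2⟩
      have h3 : e' 1 = e 1 := h1 1 fun k => by simp only [Y]; omega
      have h4 : S e' = S e := funext fun i => h1 _ fun k => by simp only [Y]; omega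
      have h5 : U e' = U e := funext fun i => h1 _ fun k => by simp only [Y, Z]; omega
      rw [hev e' h3, h4, h5] at h2
      exact ⟨_, h2⟩
    · rintro ⟨y, hy⟩
      obtain ⟨e', he'⟩ : ∃ e' : ℕ → R, e' = fun v => if v % 16 = 9 then y (v / 16) else e v :=
        ⟨_, rfl⟩
      have h1 : ∀ v, (∀ k, v ≠ Y k) → e' v = e v := by
        intro v hv
        have h2 : ¬ v % 16 = 9 := fun h3 => hv (v / 16) (by simp only [Y]; omega)
        rw [he']
        simp only [h2, if_false]
      have h3 : e' 1 = e 1 := h1 1 fun k => by simp only [Y]; omega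
      have h4 : S e' = S e := funext fun i => h1 _ fun k => by simp only [Y]; omega
      have h5 : U e' = U e := funext fun i => h1 _ fun k => by simp only [Y, Z]; omega
      have h6 : (fun k => e' (Y k)) = y := by
        funext k
        have h7 : Y k % 16 = 9 := by simp only [Y]; omega
        have h8 : Y k / 16 = k := by simp only [Y]; omega
        rw [he']
        simp only [h7, if_true, h8]
      refine ⟨e', h1, ?_⟩
      rw [hev e' h3, h4, h5, h6]
      exact hy
  · show Sat (ringRS (e 1)) e (exW W (ZF (qE p l l')) ((ZF (qE p l l')).code + 1)) ↔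
      ∃ x : ℕ → R, pv (e 1) (S e) (U e) l = pv (e 1) (S e) x l'
    rw [sat_exW_code _ W (fun k => by simp only [W]; omega)]
    have hev : ∀ e' : ℕ → R, e' 1 = e 1 → (Sat (ringRS (e 1)) e' (ZF (qE p l l')) ↔
        pv (e 1) (S e') (U e') l = pv (e 1) (S e') (fun k => e' (W k)) l') := by
      intro e' he
      rw [Wr.sat_ZF, he, qE, DS90.De.ev_append, DS90.De.ev_neg _ hp hR, ev_pq', ev_pq',
        vsE, vzE, vxE, ← sub_eq_add_neg, sub_eq_zero]
    constructor
    · rintro ⟨e', h1, h2⟩
      have h3 : e' 1 = e 1 := h1 1 fun k => by simp only [W]; omega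
      have h4 : S e' = S e := funext fun i => h1 _ fun k => by simp only [W]; omega
      have h5 : U e' = U e := funext fun i => h1 _ fun k => by simp only [W, Z]; omega
      rw [hev e' h3, h4, h5] at h2
      exact ⟨_, h2⟩
    · rintro ⟨y, hy⟩
      obtain ⟨e', he'⟩ : ∃ e' : ℕ → R, e' = fun v => if v % 16 = 11 then y (v / 16) else e v :=
        ⟨_, rfl⟩
      have h1 : ∀ v, (∀ k, v ≠ W k) → e' v = e v := by
        intro v hv
        have h2 : ¬ v % 16 = 11 := fun h3 => hv (v / 16) (by simp only [W]; omega)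
        rw [he']
        simp only [h2, if_false]
      have h3 : e' 1 = e 1 := h1 1 fun k => by simp only [W]; omega
      have h4 : S e' = S e := funext fun i => h1 _ fun k => by simp only [W]; omega
      have h5 : U e' = U e := funext fun i => h1 _ fun k => by simp only [W, Z]; omega
      have h6 : (fun k => e' (W k)) = y := by
        funext k
        have h7 : W k % 16 = 11 := by simp only [W]; omega
        have h8 : W k / 16 = k := by simp only [W]; omega
        rw [he']
        simp only [h7, if_true, h8]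
      refine ⟨e', h1, ?_⟩
      rw [hev e' h3, h4, h5, h6]
      exact hy

include hp hR in
theorem sat_LF (x : Bool × Atm) (e : ℕ → R) : Sat (ringRS (e 1)) e (LF p x) ↔
    (x.1 = true ↔ Atm.Holds (e 1) (DV (e 1)) (S e) (U e) x.2) := by
  rw [LF]
  by_cases hx : x.1 = true
  · rw [if_pos hx, sat_AF hp hR]
    simp [hx]
  · rw [if_neg hx]
    show ¬ Sat (ringRS (e 1)) e (AF p x.2) ↔ _
    rw [sat_AF hp hR]
    simp [hx]

include hp hR in
theorem sat_JF (c : List (Bool × Atm)) (e : ℕ → R) : Sat (ringRS (e 1)) e (JF p c) ↔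
    ∀ x ∈ c, (x.1 = true ↔ Atm.Holds (e 1) (DV (e 1)) (S e) (U e) x.2) := by
  induction c with
  | nil => simp [JF, Sat]
  | cons x c ih =>
    have h1 : JF p (x :: c) = .and (LF p x) (JF p c) := rfl
    rw [h1, List.forall_mem_cons, ← ih, ← sat_LF hp hR]
    rfl

include hp hR in
theorem sat_MF (m : Mat) (e : ℕ → R) : Sat (ringRS (e 1)) e (MF p m) ↔
    MHolds (e 1) (DV (e 1)) (S e) (U e) m := by
  unfold MHolds
  induction m with
  | nil => simp [MF, Sat]
  | cons c m ih =>
    have h1 : MF p (c :: m) = .neg (.and (.neg (JF p c)) (.neg (MF p m))) := rfl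
    have h2 : Sat (ringRS (e 1)) e (.neg (.and (.neg (JF p c)) (.neg (MF p m)))) ↔
        ¬ (¬ Sat (ringRS (e 1)) e (JF p c) ∧ ¬ Sat (ringRS (e 1)) e (MF p m)) := Iff.rfl
    rw [h1, h2, not_and_or, not_not, not_not, sat_JF hp hR, ih, List.exists_mem_cons_iff]

theorem S_update (e : ℕ → R) (i : ℕ) (x : R) : S (Function.update e (Z i) x) = S e := by
  funext k
  simp only [S, Z]
  rw [Function.update_of_ne (by omega)]

theorem U_update (e : ℕ → R) (i : ℕ) (x : R) :
    U (Function.update e (Z i) x) = Function.update (U e) i x := by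
  funext k
  by_cases hk : k = i
  · subst hk
    simp only [U, Function.update_self]
  · simp only [U]
    rw [Function.update_of_ne hk, Function.update_of_ne (by simp only [Z]; omega)]

theorem one_update (e : ℕ → R) (i : ℕ) (x : R) : Function.update e (Z i) x 1 = e 1 := by
  rw [Function.update_of_ne (by simp only [Z]; omega)]

include hp hR in
theorem sat_PF (m : Mat) (π : List (Bool × ℕ)) : ∀ e : ℕ → R, Sat (ringRS (e 1)) e (PF p m π) ↔
    Holds (e 1) (DV (e 1)) (S e) m π (U e) := by
  induction π with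
  | nil =>
    intro e
    exact sat_MF hp hR m e
  | cons x π ih =>
    intro e
    obtain ⟨b, i⟩ := x
    have h0 : ∀ x : R, Sat (ringRS (e 1)) (Function.update e (Z i) x) (PF p m π) ↔
        Holds (e 1) (DV (e 1)) (S e) m π (Function.update (U e) i x) := by
      intro x
      have h1 := ih (Function.update e (Z i) x)
      rw [one_update, S_update, U_update] at h1
      exact h1
    cases b with
    | true =>
      show (∃ x : R, Sat (ringRS (e 1)) (Function.update e (Z i) x) (PF p m π)) ↔
        ∃ x : R, Holds (e 1) (DV (e 1)) (S e) m π (Function.update (U e) i x)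
      simp only [h0]
    | false =>
      show (¬ ∃ x : R, ¬ Sat (ringRS (e 1)) (Function.update e (Z i) x) (PF p m π)) ↔
        ∀ x : R, Holds (e 1) (DV (e 1)) (S e) m π (Function.update (U e) i x)
      simp only [h0, not_exists, not_not]

theorem sat_ZZ (t : R) (N : ℕ) (e : ℕ → R) :
    Sat (ringRS t) e (ZZ N) ↔ ∀ i < N, e (Z i) = 0 := by
  induction N with
  | zero => simp [ZZ, Sat]
  | succ N ih =>
    have h1 : ZZ (N + 1) = .and (ZZ N) (.zero (Z N)) := rfl
    have h2 : Sat (ringRS t) e (.and (ZZ N) (.zero (Z N))) ↔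
        Sat (ringRS t) e (ZZ N) ∧ e (Z N) = 0 := Iff.rfl
    rw [h1, h2, ih]
    constructor
    · rintro ⟨h1, h2⟩ i hi
      rcases Nat.lt_succ_iff_lt_or_eq.1 hi with hi | rfl
      · exact h1 i hi
      · exact h2
    · intro h
      exact ⟨fun i hi => h i (by omega), h N (by omega)⟩

theorem sat_BF (B : List PL) (n : ℕ) (e : ℕ → R) :
    Sat (ringRS (e 1)) e (BF B n) ↔ ∀ i < n, ev (e 1) (S e) (B.getD i []) = 0 ∧
      ∃ u, ev (e 1) (Function.update (S e) (i + 1) u) (B.getD i []) ≠ 0 := by
  induction n with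
  | zero => simp [BF, Sat]
  | succ n ih =>
    have h1 : BF B (n + 1) = .and (BF B n) (.and (ZF (ren vs (B.getD n [])))
      (.ex (16 * n + 7) (.neg (ZF (ren (vu n) (B.getD n [])))))) := rfl
    have h2 : Sat (ringRS (e 1)) e (.and (BF B n) (.and (ZF (ren vs (B.getD n [])))
      (.ex (16 * n + 7) (.neg (ZF (ren (vu n) (B.getD n []))))))) ↔
        Sat (ringRS (e 1)) e (BF B n) ∧ Sat (ringRS (e 1)) e (ZF (ren vs (B.getD n []))) ∧
          ∃ u : R, ¬ Sat (ringRS (e 1)) (Function.update e (16 * n + 7) u)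
            (ZF (ren (vu n) (B.getD n []))) := Iff.rfl
    have h3 : Sat (ringRS (e 1)) e (ZF (ren vs (B.getD n []))) ↔
        ev (e 1) (S e) (B.getD n []) = 0 := by
      rw [Wr.sat_ZF, CB90.De.ev_ren, vsE]
    have h4 : ∀ u : R, Sat (ringRS (e 1)) (Function.update e (16 * n + 7) u)
        (ZF (ren (vu n) (B.getD n []))) ↔
        ev (e 1) (Function.update (S e) (n + 1) u) (B.getD n []) = 0 := by
      intro u
      rw [Wr.sat_ZF, DS90.De.ev_vu, Function.update_of_ne (by omega)]
      have h5 : (Function.update (fun j => (fun i => Function.update e (16 * n + 7) u (2 * i + 3))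
          (vs j)) (n + 1) ((fun i => Function.update e (16 * n + 7) u (2 * i + 3)) (8 * n + 2))) =
          Function.update (S e) (n + 1) u := by
        funext k
        by_cases hk : k = n + 1
        · subst hk
          rw [Function.update_self, Function.update_self]
          have h6 : 2 * (8 * n + 2) + 3 = 16 * n + 7 := by omega
          simp only [h6, Function.update_self]
        · rw [Function.update_of_ne hk, Function.update_of_ne hk]
          have h6 : 2 * vs k + 3 = 16 * k + 3 := by simp only [vs]; omega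
          simp only [h6, S]
          rw [Function.update_of_ne (by omega)]
      rw [h5]
    rw [h1, h2, ih, h3]
    simp only [h4]
    constructor
    · rintro ⟨h1, h2⟩ i hi
      rcases Nat.lt_succ_iff_lt_or_eq.1 hi with hi | rfl
      · exact h1 i hi
      · exact h2
    · intro h
      exact ⟨fun i hi => h i (by omega), h n (by omega)⟩

include hp hR in
theorem sat_TF (t : R) (a : Inp) : (∃ e, Sat (ringRS t) e (TF p a)) ↔ PSol t (DV t) a := by
  obtain ⟨B, π, m⟩ := a
  have hget : ∀ i b, B[i]? = some b ↔ i < B.length ∧ B.getD i [] = b := by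
    intro i b
    rw [List.getD_eq_getElem?_getD]
    constructor
    · intro h
      refine ⟨?_, by rw [h]; rfl⟩
      by_contra hi
      rw [List.getElem?_eq_none (by omega)] at h
      exact absurd h (by simp)
    · rintro ⟨h1, h2⟩
      rw [List.getElem?_eq_getElem h1] at h2 ⊢
      simpa using h2
  have hbase : ∀ s : ℕ → R, Base t B s ↔ ∀ i < B.length, ev t s (B.getD i []) = 0 ∧
      ∃ u, ev t (Function.update s (i + 1) u) (B.getD i []) ≠ 0 := by
    intro s
    constructor
    · intro h i hi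
      exact h i _ ((hget i _).2 ⟨hi, rfl⟩)
    · intro h i b hb
      obtain ⟨h1, h2⟩ := (hget i b).1 hb
      rw [← h2]
      exact h i h1
  have hsat : ∀ e : ℕ → R, Sat (ringRS t) e (TF p (B, π, m)) ↔ e 1 = t ∧
      Sat (ringRS t) e (BF B B.length) ∧
      Sat (ringRS t) e (ZZ ((PF p m π).code + 1)) ∧ Sat (ringRS t) e (PF p m π) := fun e => Iff.rfl
  constructor
  · rintro ⟨e, he⟩
    rw [hsat] at he
    obtain ⟨rfl, h1, h2, h3⟩ := he
    rw [sat_BF, ← hbase] at h1
    rw [sat_ZZ] at h2
    refine ⟨S e, h1, ?_⟩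
    obtain ⟨e', he'⟩ : ∃ e' : ℕ → R, e' = fun v => if v % 16 = 5 then 0 else e v := ⟨_, rfl⟩
    have h4 : e' 1 = e 1 := by rw [he']; simp
    have h5 : S e' = S e := by
      funext i
      have h6 : ¬ (16 * i + 3) % 16 = 5 := by omega
      simp only [he', S, h6, if_false]
    have h7 : U e' = fun _ => 0 := by
      funext i
      have h6 : (16 * i + 5) % 16 = 5 := by omega
      simp only [he', U, Z, h6, if_true]
    have h8 : Sat (ringRS (e 1)) e' (PF p m π) := by
      rw [Asm.sat_dep_code _ _ e' e]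
      · exact h3
      · intro v hv
        by_cases h9 : v % 16 = 5
        · have h10 : e v = 0 := by
            have h11 := h2 (v / 16) (by omega)
            rw [show Z (v / 16) = v by simp only [Z]; omega] at h11
            exact h11
          simp only [he', h9, if_true, h10]
        · simp only [he', h9, if_false]
    rw [← h4, sat_PF hp hR, h4, h5, h7] at h8
    exact h8
  · rintro ⟨s, h1, h2⟩
    obtain ⟨e, he⟩ : ∃ e : ℕ → R, e = fun v => if v = 1 then t else
      if v % 16 = 3 then s (v / 16) else 0 := ⟨_, rfl⟩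
    have h3 : e 1 = t := by rw [he]; simp
    have h4 : S e = s := by
      funext i
      have h5 : ¬ (16 * i + 3) = 1 := by omega
      have h6 : (16 * i + 3) % 16 = 3 := by omega
      have h7 : (16 * i + 3) / 16 = i := by omega
      simp only [he, S, h5, h6, h7, if_true, if_false]
    have h8 : U e = fun _ => 0 := by
      funext i
      have h5 : ¬ (16 * i + 5) = 1 := by omega
      have h6 : ¬ (16 * i + 5) % 16 = 3 := by omega
      simp only [he, U, Z, h5, h6, if_false]
    refine ⟨e, ?_⟩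
    rw [hsat]
    refine ⟨h3, ?_, ?_, ?_⟩
    · rw [← h3, sat_BF, h3, h4, ← hbase]
      exact h1
    · rw [sat_ZZ]
      intro i _
      exact congrFun h8 i
    · rw [← h3, sat_PF hp hR, h3, h4, h8]
      exact h2

end sem

/-! ### The codes are primitive recursive -/

section prim

open Primrec

theorem primrec_exW {w : ℕ → ℕ} (hw : Primrec w) {α : Type} [Primcodable α] {φ : α → FR}
    (hφ : Primrec fun a => (φ a).code) {N : α → ℕ} (hN : Primrec N) :
    Primrec fun a => (exW w (φ a) (N a)).code := by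
  have h1 : Primrec₂ fun (_ : α) (x : ℕ × ℕ) => Nat.pair 8 (Nat.pair (w x.1) x.2) :=
    Ax.p_pair (Primrec.const 8) (Ax.p_pair (hw.comp (Primrec.fst.comp Primrec.snd))
      (Primrec.snd.comp Primrec.snd))
  refine (Primrec.nat_rec' hN hφ h1).of_eq fun a => ?_
  induction N a with
  | zero => rfl
  | succ n ih =>
    simp only [exW, FR.code, ← ih]

theorem primrec_Z : Primrec Z :=
  Primrec.nat_add.comp (Primrec.nat_mul.comp (Primrec.const 16) Primrec.id) (Primrec.const 5)

theorem primrec_Y : Primrec Y :=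
  Primrec.nat_add.comp (Primrec.nat_mul.comp (Primrec.const 16) Primrec.id) (Primrec.const 9)

theorem primrec_W : Primrec W :=
  Primrec.nat_add.comp (Primrec.nat_mul.comp (Primrec.const 16) Primrec.id) (Primrec.const 11)

theorem primrec_vy : Primrec vy :=
  Primrec.nat_add.comp (Primrec.nat_mul.comp (Primrec.const 8) Primrec.id) (Primrec.const 3)

theorem primrec_vx : Primrec vx :=
  Primrec.nat_add.comp (Primrec.nat_mul.comp (Primrec.const 8) Primrec.id) (Primrec.const 4)

theorem a1 : Primrec fun a : Atm => a.1 := Primrec.fst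
theorem a2 : Primrec fun a : Atm => a.2.1 := Primrec.fst.comp Primrec.snd
theorem a3 : Primrec fun a : Atm => a.2.2.1 := Primrec.fst.comp (Primrec.snd.comp Primrec.snd)
theorem a4 : Primrec fun a : Atm => a.2.2.2 := Primrec.snd.comp (Primrec.snd.comp Primrec.snd)

theorem primrec_rvy : Primrec (ren vy) :=
  (DS90.De.primrec_ren (α := Unit) (w := fun _ => vy) (primrec_vy.comp Primrec.snd)).comp
    (Primrec.const ()) Primrec.id

theorem primrec_rvs : Primrec (ren vs) :=
  (DS90.De.primrec_ren (α := Unit) (w := fun _ => vs) (DS90.De.primrec_vs.comp Primrec.snd)).comp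
    (Primrec.const ()) Primrec.id

theorem primrec_pz : Primrec (pq vz : PZ → PL) := DS90.De.primrec_pz

theorem primrec_px : Primrec (pq vx : PZ → PL) :=
  (DS90.De.primrec_pq (α := Unit) (w := fun _ => vx) (primrec_vx.comp Primrec.snd)).comp
    (Primrec.const ()) Primrec.id

theorem primrec_AF (p : ℕ) : Primrec fun a : Atm => (AF p a).code := by
  have hz : Primrec fun a : Atm => pq vz a.2.1 := primrec_pz.comp a2
  have h0 : Primrec fun a : Atm => (ZF (pq vz a.2.1)).code := Wr.primrec_ZF.comp hz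
  have hc : Primrec fun a : Atm => (ZF (cE p a.2.1 a.2.2.1)).code :=
    Wr.primrec_ZF.comp (Primrec.list_append.comp
      (CB90.De.primrec_mulP.comp (Primrec.const [(0, [5])]) hz)
      ((DS90.De.primrec_neg p).comp (primrec_pz.comp a3)))
  have h1 : Primrec fun a : Atm => Nat.pair 8 (Nat.pair 13 (Nat.pair 8 (Nat.pair 15
      (Nat.pair 7 (Nat.pair (ZF (cE p a.2.1 a.2.2.1)).code (ZF (dE p)).code))))) :=
    Ax.p_pair (Primrec.const 8) (Ax.p_pair (Primrec.const 13) (Ax.p_pair (Primrec.const 8)
      (Ax.p_pair (Primrec.const 15) (Ax.p_pair (Primrec.const 7) (Ax.p_pair hc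
        (Primrec.const _))))))
  have hf : Primrec fun a : Atm => (ZF (fE p a.2.1 a.2.2.2)).code :=
    Wr.primrec_ZF.comp (Primrec.list_append.comp hz
      ((DS90.De.primrec_neg p).comp (primrec_rvy.comp a4)))
  have h2 : Primrec fun a : Atm => (exW Y (ZF (fE p a.2.1 a.2.2.2))
      ((ZF (fE p a.2.1 a.2.2.2)).code + 1)).code :=
    primrec_exW primrec_Y hf (Primrec.succ.comp hf)
  have hq : Primrec fun a : Atm => (ZF (qE p a.2.1 a.2.2.1)).code :=
    Wr.primrec_ZF.comp (Primrec.list_append.comp hz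
      ((DS90.De.primrec_neg p).comp (primrec_px.comp a3)))
  have h3 : Primrec fun a : Atm => (exW W (ZF (qE p a.2.1 a.2.2.1))
      ((ZF (qE p a.2.1 a.2.2.1)).code + 1)).code :=
    primrec_exW primrec_W hq (Primrec.succ.comp hq)
  have e : ∀ n : ℕ, PrimrecPred fun a : Atm => a.1 = n := fun n =>
    Primrec.eq.comp a1 (Primrec.const n)
  refine (Primrec.ite (e 0) h0 (Primrec.ite (e 1) h1 (Primrec.ite (e 2) h2 h3))).of_eq fun a => ?_
  obtain ⟨k, l, l', F⟩ := a
  rcases k with _ | _ | _ | k
  · show (if (0 : ℕ) = 0 then (ZF (pq vz l)).code else _) = (AF p (0, l, l', F)).code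
    rw [if_pos rfl, AF]
  · have e0 : ¬ 0 + 1 = 0 := by omega
    show (if 0 + 1 = 0 then (ZF (pq vz l)).code else if 0 + 1 = 1 then _ else _) =
      (AF p (0 + 1, l, l', F)).code
    rw [if_neg e0, if_pos rfl]
    simp only [AF, FR.code]
  · have e0 : ¬ 0 + 1 + 1 = 0 := by omega
    have e1 : ¬ 0 + 1 + 1 = 1 := by omega
    show (if 0 + 1 + 1 = 0 then (ZF (pq vz l)).code else if 0 + 1 + 1 = 1 then _ else
      if 0 + 1 + 1 = 2 then _ else _) = (AF p (0 + 1 + 1, l, l', F)).code
    rw [if_neg e0, if_neg e1, if_pos rfl]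
    simp only [AF]
  · have e0 : ¬ k + 1 + 1 + 1 = 0 := by omega
    have e1 : ¬ k + 1 + 1 + 1 = 1 := by omega
    have e2 : ¬ k + 1 + 1 + 1 = 2 := by omega
    show (if k + 1 + 1 + 1 = 0 then (ZF (pq vz l)).code else if k + 1 + 1 + 1 = 1 then _ else
      if k + 1 + 1 + 1 = 2 then _ else _) = (AF p (k + 1 + 1 + 1, l, l', F)).code
    rw [if_neg e0, if_neg e1, if_neg e2]
    simp only [AF]

theorem primrec_LF (p : ℕ) : Primrec fun x : Bool × Atm => (LF p x).code := by
  have h1 : PrimrecPred fun x : Bool × Atm => x.1 = true :=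
    Primrec.eq.comp Primrec.fst (Primrec.const true)
  have h2 : Primrec fun x : Bool × Atm => (AF p x.2).code := (primrec_AF p).comp Primrec.snd
  refine (Primrec.ite h1 h2 (Ax.p_pair (Primrec.const 6) h2)).of_eq fun x => ?_
  by_cases h : x.1 = true
  · rw [if_pos h, LF, if_pos h]
  · rw [if_neg h, LF, if_neg h]
    rfl

theorem primrec_JF (p : ℕ) : Primrec fun c : List (Bool × Atm) => (JF p c).code := by
  have h1 : Primrec₂ fun (_ : List (Bool × Atm)) (y : (Bool × Atm) × ℕ) =>
      Nat.pair 7 (Nat.pair (LF p y.1).code y.2) :=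
    Ax.p_pair (Primrec.const 7) (Ax.p_pair ((primrec_LF p).comp (Primrec.fst.comp Primrec.snd))
      (Primrec.snd.comp Primrec.snd))
  refine (Primrec.list_foldr (f := fun c : List (Bool × Atm) => c)
    (g := fun _ => Nat.pair 0 (Nat.pair 0 0)) Primrec.id (Primrec.const _) h1).of_eq fun c => ?_
  induction c with
  | nil => rfl
  | cons x c ih =>
    rw [List.foldr_cons, ih]
    rfl

theorem primrec_MF (p : ℕ) : Primrec fun m : Mat => (MF p m).code := by
  have h1 : Primrec₂ fun (_ : Mat) (y : List (Bool × Atm) × ℕ) =>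
      Nat.pair 6 (Nat.pair 7 (Nat.pair (Nat.pair 6 (JF p y.1).code) (Nat.pair 6 y.2))) :=
    Ax.p_pair (Primrec.const 6) (Ax.p_pair (Primrec.const 7) (Ax.p_pair
      (Ax.p_pair (Primrec.const 6) ((primrec_JF p).comp (Primrec.fst.comp Primrec.snd)))
      (Ax.p_pair (Primrec.const 6) (Primrec.snd.comp Primrec.snd))))
  refine (Primrec.list_foldr (f := fun m : Mat => m)
    (g := fun _ => Nat.pair 6 (Nat.pair 0 (Nat.pair 0 0))) Primrec.id (Primrec.const _)
    h1).of_eq fun m => ?_
  induction m with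
  | nil => rfl
  | cons x c ih =>
    rw [List.foldr_cons, ih]
    rfl

theorem primrec_PF (p : ℕ) : Primrec₂ fun (m : Mat) (π : List (Bool × ℕ)) =>
    (PF p m π).code := by
  have e : PrimrecPred fun x : (Mat × List (Bool × ℕ)) × ((Bool × ℕ) × ℕ) =>
      x.2.1.1 = true := Primrec.eq.comp (Primrec.fst.comp (Primrec.fst.comp Primrec.snd))
        (Primrec.const true)
  have hi : Primrec fun x : (Mat × List (Bool × ℕ)) × ((Bool × ℕ) × ℕ) => Z x.2.1.2 :=
    primrec_Z.comp (Primrec.snd.comp (Primrec.fst.comp Primrec.snd))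
  have hs : Primrec fun x : (Mat × List (Bool × ℕ)) × ((Bool × ℕ) × ℕ) => x.2.2 :=
    Primrec.snd.comp Primrec.snd
  have h1 : Primrec₂ fun (_ : Mat × List (Bool × ℕ)) (y : (Bool × ℕ) × ℕ) =>
      if y.1.1 = true then Nat.pair 8 (Nat.pair (Z y.1.2) y.2) else
        Nat.pair 6 (Nat.pair 8 (Nat.pair (Z y.1.2) (Nat.pair 6 y.2))) :=
    Primrec.ite e (Ax.p_pair (Primrec.const 8) (Ax.p_pair hi hs))
      (Ax.p_pair (Primrec.const 6) (Ax.p_pair (Primrec.const 8) (Ax.p_pair hi
        (Ax.p_pair (Primrec.const 6) hs))))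
  refine (Primrec.list_foldr (f := fun x : Mat × List (Bool × ℕ) => x.2)
    (g := fun x => (MF p x.1).code) Primrec.snd ((primrec_MF p).comp Primrec.fst)
    h1).of_eq fun x => ?_
  obtain ⟨m, π⟩ := x
  show List.foldr (fun b s => if b.1 = true then Nat.pair 8 (Nat.pair (Z b.2) s) else
        Nat.pair 6 (Nat.pair 8 (Nat.pair (Z b.2) (Nat.pair 6 s)))) (MF p m).code π =
    (PF p m π).code
  induction π with
  | nil => rfl
  | cons x π ih =>
    rw [List.foldr_cons, ih]
    have h2 : PF p m (x :: π) = QF x (PF p m π) := rfl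
    rw [h2, QF]
    by_cases h : x.1 = true
    · rw [if_pos h, if_pos h]
      rfl
    · rw [if_neg h, if_neg h]
      rfl

theorem primrec_ZZ : Primrec fun N : ℕ => (ZZ N).code := by
  have h1 : Primrec₂ fun (_ : ℕ) (x : ℕ × ℕ) =>
      Nat.pair 7 (Nat.pair x.2 (Nat.pair 3 (Z x.1))) :=
    Ax.p_pair (Primrec.const 7) (Ax.p_pair (Primrec.snd.comp Primrec.snd)
      (Ax.p_pair (Primrec.const 3) (primrec_Z.comp (Primrec.fst.comp Primrec.snd))))
  refine (Primrec.nat_rec' (f := fun N : ℕ => N) (g := fun _ => Nat.pair 0 (Nat.pair 0 0))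
    Primrec.id (Primrec.const _) h1).of_eq fun N => ?_
  induction N with
  | zero => rfl
  | succ n ih =>
    show Nat.pair 7 (Nat.pair _ _) = _
    rw [ih]
    rfl

theorem primrec_BF : Primrec fun B : List PL => (BF B B.length).code := by
  have hg : Primrec fun x : List PL × (ℕ × ℕ) => x.1.getD x.2.1 [] :=
    (Primrec.list_getD ([] : PL)).comp Primrec.fst (Primrec.fst.comp Primrec.snd)
  have hw : Primrec fun x : List PL × (ℕ × ℕ) => 16 * x.2.1 + 7 :=
    Primrec.nat_add.comp (Primrec.nat_mul.comp (Primrec.const 16)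
      (Primrec.fst.comp Primrec.snd)) (Primrec.const 7)
  have hu : Primrec fun x : List PL × (ℕ × ℕ) => (ZF (ren (vu x.2.1) (x.1.getD x.2.1 []))).code :=
    Wr.primrec_ZF.comp ((DS90.De.primrec_ren DS90.De.primrec_vu).comp
      (Primrec.fst.comp Primrec.snd) hg)
  have h1 : Primrec₂ fun (B : List PL) (x : ℕ × ℕ) =>
      Nat.pair 7 (Nat.pair x.2 (Nat.pair 7 (Nat.pair (ZF (ren vs (B.getD x.1 []))).code
        (Nat.pair 8 (Nat.pair (16 * x.1 + 7)
          (Nat.pair 6 (ZF (ren (vu x.1) (B.getD x.1 []))).code)))))) :=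
    Ax.p_pair (Primrec.const 7) (Ax.p_pair (Primrec.snd.comp Primrec.snd)
      (Ax.p_pair (Primrec.const 7) (Ax.p_pair (Wr.primrec_ZF.comp (primrec_rvs.comp hg))
        (Ax.p_pair (Primrec.const 8) (Ax.p_pair hw (Ax.p_pair (Primrec.const 6) hu))))))
  refine (Primrec.nat_rec' (f := fun B : List PL => B.length)
    (g := fun _ => Nat.pair 0 (Nat.pair 0 0)) Primrec.list_length (Primrec.const _)
    h1).of_eq fun B => ?_
  induction B.length with
  | zero => rfl
  | succ n ih =>
    show Nat.pair 7 (Nat.pair _ _) = _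
    rw [ih]
    rfl

theorem primrec_TF (p : ℕ) : Primrec fun a : Inp => (TF p a).code := by
  have hP : Primrec fun a : Inp => (PF p a.2.2 a.2.1).code :=
    (primrec_PF p).comp (Primrec.snd.comp Primrec.snd) (Primrec.fst.comp Primrec.snd)
  exact Ax.p_pair (Primrec.const 7) (Ax.p_pair (Primrec.const (Nat.pair 5 1))
    (Ax.p_pair (Primrec.const 7) (Ax.p_pair (primrec_BF.comp Primrec.fst)
      (Ax.p_pair (Primrec.const 7) (Ax.p_pair (primrec_ZZ.comp (Primrec.succ.comp hP)) hP)))))

end prim

/-! ### Decision for formulas over a domain with a decision procedure -/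

open Classical in
/-- the closed formula -/
noncomputable def G {α : Type} (Ψ : α → FR) (dom : α → Bool) (a : α) : FR :=
  if dom a = true then exc (Ψ a) ((Ψ a).code + 1) else .eq 0 0

/-- the decision procedure for formulas whose satisfiability does not depend on the model -/
theorem decide_FR (p : ℕ) [Fact p.Prime] {α : Type} [Primcodable α] (Ψ : α → FR)
    (hΨ : Primrec fun a => (Ψ a).code) (dom : α → Bool) (hdom : Computable dom)
    (h : ∀ (M : Type) [Field M] (σ : P1 p →+* M), Mdl p σ → ∀ a, dom a = true →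
      ((∃ e, Sat (ringRS (σ X)) e (Ψ a)) ↔ ∃ e, Sat (ringRS (tauK p X)) e (Ψ a))) :
    ∃ D : α → Bool, Computable D ∧
      ∀ a, dom a = true → (D a = true ↔ ∃ e, Sat (ringRS (tauK p X)) e (Ψ a)) := by
  obtain ⟨AL, hAL, hsound, hcomplete⟩ := exists_axioms p
  obtain ⟨P, hP, hPe⟩ := re_conseq AL hAL
  have hg : Computable (fun a : α => (G Ψ dom a).code) := by
    have h1 : Computable (fun a : α => Wr.kExc (Ψ a).code ((Ψ a).code + 1)) :=
      (Wr.primrec_kExc.comp hΨ (Primrec.succ.comp hΨ)).to_comp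
    have h2 : Computable (fun a : α => cond (dom a)
        (Wr.kExc (Ψ a).code ((Ψ a).code + 1)) (Nat.pair 0 (Nat.pair 0 0))) :=
      Computable.cond hdom h1 (Computable.const _)
    refine h2.of_eq fun a => ?_
    by_cases h : dom a = true
    · simp only [G, h, if_true, Wr.code_exc, cond_true]
    · have h' : dom a = false := by simpa using h
      simp only [G, h', cond_false]
      rfl
  have hg2 : Computable (fun a : α => Nat.pair 6 (G Ψ dom a).code) :=
    (Primrec₂.natPair.comp (Primrec.const 6) Primrec.id).to_comp.comp hg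
  -- the truth value does not depend on the model
  have hmod : ∀ a, ∀ (β : Type) (R : RS β), (∀ n e, Sat R e (AL n)) → ∀ x : β,
      (Sat R (fun _ => x) (G Ψ dom a) ↔
        (dom a = true → ∃ e, Sat (ringRS (tauK p X)) e (Ψ a))) := by
    intro a β R hR x
    by_cases hd : dom a = true
    · obtain ⟨F, σ, rfl, hσ⟩ := @hcomplete β ⟨x⟩ R hR
      have e1 : G Ψ dom a = exc (Ψ a) ((Ψ a).code + 1) := by
        rw [G, if_pos hd]
      rw [e1, Wr.sat_exc_code, h β σ hσ a hd]
      exact ⟨fun h' _ => h', fun h' => h' hd⟩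
    · have e1 : G Ψ dom a = .eq 0 0 := by
        rw [G, if_neg hd]
      rw [e1]
      exact ⟨fun _ h' => absurd h' hd, fun _ => rfl⟩
  have hKK : Mdl p (tauK p) := mdl_KK
  have h1 : ∀ a, (P (G Ψ dom a).code ↔
      (dom a = true → ∃ e, Sat (ringRS (tauK p X)) e (Ψ a))) := by
    intro a
    rw [hPe]
    constructor
    · intro h'
      exact (hmod a (KK p) (ringRS (tauK p X)) (hsound (KK p) (tauK p) hKK) 0).1
        (h' (KK p) _ (hsound (KK p) (tauK p) hKK) 0)
    · intro h' β R hR x
      exact (hmod a β R hR x).2 h'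
  have h2 : ∀ a, (P (Nat.pair 6 (G Ψ dom a).code) ↔
      ¬ (dom a = true → ∃ e, Sat (ringRS (tauK p X)) e (Ψ a))) := by
    intro a
    refine (hPe (.neg (G Ψ dom a))).trans ?_
    constructor
    · intro h' h''
      exact h' (KK p) _ (hsound (KK p) (tauK p) hKK) 0
        ((hmod a (KK p) (ringRS (tauK p X)) (hsound (KK p) (tauK p) hKK) 0).2 h'')
    · intro h' β R hR x h''
      exact h' ((hmod a β R hR x).1 h'')
  have h3 : ComputablePred (fun a : α => P (G Ψ dom a).code) := by
    rw [ComputablePred.computable_iff_re_compl_re']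
    have h4 : REPred (fun a : α => P (Nat.pair 6 (G Ψ dom a).code)) := hP.comp hg2
    refine ⟨hP.comp hg, h4.of_eq fun a => ?_⟩
    rw [h1 a]
    exact h2 a
  obtain ⟨D, hD, hDe⟩ := ComputablePred.computable_iff.1 h3
  refine ⟨D, hD, fun a ha => ?_⟩
  have h4 := congrFun hDe a
  rw [← iff_eq_eq] at h4
  rw [← h4, h1 a]
  exact ⟨fun h' => h' ha, fun h' _ => h'⟩

/-! ### The conditions on inputs -/

/-- the conditions on an atomic condition, except for the forms -/
def AA (p n : ℕ) (a : Atm) : Prop :=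
  Deg n 1 a.2.1 ∧ (¬ a.1 = 1 ∨ Deg n 1 a.2.2.1) ∧
    (a.1 ≤ 2 ∨ Deg n (if p = 2 then 1 else 2) a.2.2.1)

/-- the form -/
def fm (x : Bool × Atm) : PL := if x.2.1 = 2 then x.2.2.2.2 else []

theorem form_nil (p : ℕ) [Fact p.Prime] : Form p [] :=
  (NS90.De.form_iff p []).2 (Or.inl rfl)

theorem adm_atm (p : ℕ) [Fact p.Prime] (n : ℕ) (x : Bool × Atm) :
    Atm.Adm p n x.2 ↔ AA p n x.2 ∧ Form p (fm x) := by
  obtain ⟨b, k, l, l', F⟩ := x
  rcases k with _ | _ | _ | k
  · simp [Atm.Adm, AA, fm, form_nil]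
  · simp [Atm.Adm, AA, fm, form_nil]
  · simp [Atm.Adm, AA, fm]
  · have e1 : ¬ k + 3 = 1 := by omega
    have e2 : ¬ k + 3 ≤ 2 := by omega
    have e3 : ¬ k + 3 = 2 := by omega
    simp only [Atm.Adm, AA, fm, e1, e2, e3, if_false, form_nil, not_false_eq_true, true_or,
      true_and, false_or, and_true]

/-- the conditions on inputs, except for the forms -/
def Adm0 (p : ℕ) (a : Inp) : Prop :=
  (∀ i ∈ List.range a.1.length, Vars (i + 1) (a.1.getD i [])) ∧
    ∀ x ∈ a.2.2.flatten, AA p a.1.length x.2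

theorem primrec_adm0 (p : ℕ) : PrimrecPred (Adm0 p) := by
  have q1 : Primrec fun a : Inp => a.1 := Primrec.fst
  have q3 : Primrec fun a : Inp => a.2.2 := Primrec.snd.comp Primrec.snd
  have hn : Primrec fun a : Inp => a.1.length := Primrec.list_length.comp q1
  have pdeg : ∀ d : ℕ, PrimrecRel fun (f : PZ) (n : ℕ) => Deg n d f := DS90.De.primrec_deg
  have pvars : PrimrecRel fun (c : PL) (n : ℕ) => Vars n c := CB90.De.primrec_vars
  have c1 : PrimrecPred fun a : Inp =>
      ∀ i ∈ List.range a.1.length, Vars (i + 1) (a.1.getD i []) := by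
    have h6 : PrimrecRel fun (i : ℕ) (B : List PL) => Vars (i + 1) (B.getD i []) := by
      have c1 : Primrec fun x : ℕ × List PL => x.2.getD x.1 [] :=
        (Primrec.list_getD ([] : PL)).comp Primrec.snd Primrec.fst
      exact pvars.comp c1 (Primrec.succ.comp Primrec.fst)
    exact (PrimrecRel.forall_mem_list h6).comp (Primrec.list_range.comp hn) q1
  have c2 : PrimrecRel fun (x : Bool × Atm) (n : ℕ) => AA p n x.2 := by
    have e1 : Primrec fun x : (Bool × Atm) × ℕ => x.1.2.1 :=
      Primrec.fst.comp (Primrec.snd.comp Primrec.fst)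
    have e2 : Primrec fun x : (Bool × Atm) × ℕ => x.1.2.2.1 :=
      a2.comp (Primrec.snd.comp Primrec.fst)
    have e3 : Primrec fun x : (Bool × Atm) × ℕ => x.1.2.2.2.1 :=
      a3.comp (Primrec.snd.comp Primrec.fst)
    have d1 : PrimrecPred fun x : (Bool × Atm) × ℕ => Deg x.2 1 x.1.2.2.1 :=
      (pdeg 1).comp e2 Primrec.snd
    have d2 : PrimrecPred fun x : (Bool × Atm) × ℕ => x.1.2.1 = 1 :=
      Primrec.eq.comp e1 (Primrec.const 1)
    have d3 : PrimrecPred fun x : (Bool × Atm) × ℕ => Deg x.2 1 x.1.2.2.2.1 :=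
      (pdeg 1).comp e3 Primrec.snd
    have d4 : PrimrecPred fun x : (Bool × Atm) × ℕ => x.1.2.1 ≤ 2 :=
      Primrec.nat_le.comp e1 (Primrec.const 2)
    have d5 : PrimrecPred fun x : (Bool × Atm) × ℕ =>
        Deg x.2 (if p = 2 then 1 else 2) x.1.2.2.2.1 :=
      (pdeg _).comp e3 Primrec.snd
    exact d1.and ((d2.not.or d3).and (d4.or d5))
  have c3 : PrimrecPred fun a : Inp => ∀ x ∈ a.2.2.flatten, AA p a.1.length x.2 :=
    (PrimrecRel.forall_mem_list c2).comp (Primrec.list_flatten.comp q3) hn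
  exact c1.and c3

theorem adm_iff (p : ℕ) [Fact p.Prime] (a : Inp) :
    Adm p a ↔ Adm0 p a ∧ ∀ F ∈ a.2.2.flatten.map fm, Form p F := by
  obtain ⟨B, π, m⟩ := a
  have h1 : (∀ i b, B[i]? = some b → Vars (i + 1) b) ↔
      ∀ i ∈ List.range B.length, Vars (i + 1) (B.getD i []) := by
    constructor
    · intro h i hi
      have hi' : i < B.length := List.mem_range.1 hi
      refine h i _ ?_
      rw [List.getD_eq_getElem?_getD, List.getElem?_eq_getElem hi']
      rfl
    · intro h i b hb
      have hi : i < B.length := by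
        by_contra hi
        rw [List.getElem?_eq_none (by omega)] at hb
        exact absurd hb (by simp)
      have h8 := h i (List.mem_range.2 hi)
      have h9 : B.getD i [] = b := by
        rw [List.getD_eq_getElem?_getD, hb]
        rfl
      rw [← h9]
      exact h8
  have h2 : (∀ c ∈ m, ∀ x ∈ c, Atm.Adm p B.length x.2) ↔
      (∀ x ∈ m.flatten, AA p B.length x.2) ∧ ∀ F ∈ m.flatten.map fm, Form p F := by
    rw [List.forall_mem_map]
    constructor
    · intro h
      refine ⟨fun x hx => ?_, fun x hx => ?_⟩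
      · obtain ⟨c, hc, hxc⟩ := List.mem_flatten.1 hx
        exact ((adm_atm p B.length x).1 (h c hc x hxc)).1
      · obtain ⟨c, hc, hxc⟩ := List.mem_flatten.1 hx
        exact ((adm_atm p B.length x).1 (h c hc x hxc)).2
    · rintro ⟨h3, h4⟩ c hc x hx
      have h5 : x ∈ m.flatten := List.mem_flatten.2 ⟨c, hc, hx⟩
      exact (adm_atm p B.length x).2 ⟨h3 x h5, h4 x h5⟩
  show ((∀ i b, B[i]? = some b → Vars (i + 1) b) ∧ ∀ c ∈ m, ∀ x ∈ c, Atm.Adm p B.length x.2) ↔
    ((∀ i ∈ List.range B.length, Vars (i + 1) (B.getD i [])) ∧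
      ∀ x ∈ m.flatten, AA p B.length x.2) ∧ ∀ F ∈ m.flatten.map fm, Form p F
  rw [h1, h2, and_assoc]

end De

open De in
/-- the decision wrapper -/
theorem decide_psol_of (p : ℕ) [Fact p.Prime]
    (hs : ∀ (M : Type) [Field M] (σ : P1 p →+* M), Mdl p σ → ∀ (F : PL) (d : ℕ),
      (∀ m ∈ F, m.2.length = d) →
        (Sing (σ Polynomial.X) F ↔ Sing (tauK p Polynomial.X) F))
    (h : ∀ (M : Type) [Field M] (σ : P1 p →+* M), Mdl p σ → ∀ a : Inp,
      Adm p a → (PSol (σ Polynomial.X) (DV (σ Polynomial.X)) a ↔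
        PSol (tauK p Polynomial.X) (DV (tauK p Polynomial.X)) a)) :
    ∃ D : Inp → Bool, Computable D ∧ ∀ a : Inp, Adm p a → (D a = true ↔
      PSol (HahnSeries.single 1 1 : LaurentSeries (ZMod p))
        (fun x y => ∃ c : PowerSeries (ZMod p), (c : LaurentSeries (ZMod p)) * x = y) a) := by
  have hp : 1 ≤ p := (Fact.out : p.Prime).one_lt.le
  have hR : ∀ (M : Type) [Field M] (σ : P1 p →+* M), (p : M) = 0 := by
    intro M _ σ
    have h1 : ((p : ℕ) : P1 p) = 0 := CharP.cast_eq_zero (P1 p) p
    rw [← map_natCast σ, h1, map_zero]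
  obtain ⟨DF, hDF, hDFe⟩ := NS90.De.decide_form p hs
  obtain ⟨_, hA⟩ := FO90.De.primrec_adm0 p
  obtain ⟨dom, hdom0⟩ : ∃ dom : Inp → Bool, dom = fun a =>
      decide (FO90.De.Adm0 p a) && NS90.De.allC DF [] (a.2.2.flatten.map fm) := ⟨_, rfl⟩
  have hdom : Computable dom := by
    rw [hdom0]
    have hf : Primrec fm := by
      have e1 : PrimrecPred fun x : Bool × Atm => x.2.1 = 2 :=
        Primrec.eq.comp (a1.comp Primrec.snd) (Primrec.const 2)
      exact Primrec.ite e1 (a4.comp Primrec.snd) (Primrec.const [])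
    have h1 : Computable fun a : Inp => a.2.2.flatten.map fm :=
      (Primrec.list_map (Primrec.list_flatten.comp (Primrec.snd.comp Primrec.snd))
        (hf.comp Primrec.snd).to₂).to_comp
    exact Primrec.and.to_comp.comp hA.to_comp ((NS90.De.computable_allC hDF []).comp h1)
  have hdome : ∀ a, dom a = true ↔ Adm p a := by
    intro a
    rw [hdom0, FO90.De.adm_iff]
    simp only [Bool.and_eq_true, decide_eq_true_eq]
    rw [NS90.De.allC_iff]
    simp only [hDFe]
  obtain ⟨D, hD, hDe⟩ := decide_FR p (TF p) (primrec_TF p) dom hdom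
    (fun M _ σ hM a ha => by
      rw [sat_TF hp (hR M σ), sat_TF hp (hR _ (tauK p))]
      exact h M σ hM a ((hdome a).1 ha))
  refine ⟨D, hD, fun a ha => ?_⟩
  have ht : tauK p Polynomial.X = (HahnSeries.single 1 1 : LaurentSeries (ZMod p)) := by
    rw [tauK, RingHom.comp_apply, tau_X]
    exact HahnSeries.ofPowerSeries_X
  have h3 : DV (HahnSeries.single 1 1 : LaurentSeries (ZMod p)) =
      (fun a b : LaurentSeries (ZMod p) => ∃ c : PowerSeries (ZMod p),
        (c : LaurentSeries (ZMod p)) * a = b) := by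
    funext a b
    refine propext ⟨?_, ?_⟩
    · rintro ⟨c, hc, hcb⟩
      have hc' : VO (tauK p Polynomial.X) c := by
        rw [ht]
        exact hc
      obtain ⟨r, rfl⟩ := (VO_KK c).1 hc'
      exact ⟨r, hcb⟩
    · rintro ⟨r, hr⟩
      have hc' : VO (tauK p Polynomial.X) (iK p r) := (VO_KK _).2 ⟨r, rfl⟩
      rw [ht] at hc'
      exact ⟨iK p r, hc', hr⟩
  rw [hDe a ((hdome a).2 ha), sat_TF hp (hR _ (tauK p)), ← h3, ← ht]

end FO90
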