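import Pool.Agent.NS90.Defs

/-!
# First-order conditions on auxiliary variables over a base of dimension one: definitions

The base variables are `s_0, s_1, …`, the auxiliary variables are `z_0, z_1, …`; the polynomials
are those of `NS90`.
-/

namespace FO90

open LD90 NS90

/-- atomic conditions `(k, l, l', F)` -/
abbrev Atm := ℕ × PZ × PZ × PL

/-- truth of an atomic condition `(k, l, l', F)` at `(s, z)`: for `k = 0`, `l(s,z) = 0`; for
`k = 1`, `l(s,z)` divides `l'(s,z)`, where divisibility is read by the relation `r`; for `k = 2`,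
`l(s,z)` is a value of the form `F`; for `k ≥ 3`, `l(s,z)` is a value of `l'(s,·)` -/
def Atm.Holds {R : Type*} [CommRing R] (t : R) (r : R → R → Prop) (s z : ℕ → R) : Atm → Prop
  | (0, l, _, _) => pv t s z l = 0
  | (1, l, l', _) => r (pv t s z l) (pv t s z l')
  | (2, l, _, F) => ∃ y : ℕ → R, pv t s z l = ev t y F
  | (_ + 3, l, q, _) => ∃ x : ℕ → R, pv t s z l = pv t s x q

/-- the restrictions on the polynomials: `l` (and `l'` for `k = 1`) are of degree at most `1` in the
auxiliary variables, with coefficients in `s_0, …, s_n`; `F` is as in `NS90.Form`; for `k ≥ 3`, `l'`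
is of degree at most `2` (at most `1` if `p = 2`) -/
def Atm.Adm (p : ℕ) [Fact p.Prime] (n : ℕ) : Atm → Prop
  | (0, l, _, _) => Deg n 1 l
  | (1, l, l', _) => Deg n 1 l ∧ Deg n 1 l'
  | (2, l, _, F) => Deg n 1 l ∧ Form p F
  | (_ + 3, l, q, _) => Deg n 1 l ∧ Deg n (if p = 2 then 1 else 2) q

/-- quantifier-free formulas in disjunctive normal form: the pair `(true, A)` stands for `A`, the
pair `(false, A)` for its negation -/
abbrev Mat := List (List (Bool × Atm))

/-- truth of a quantifier-free formula -/
def MHolds {R : Type*} [CommRing R] (t : R) (r : R → R → Prop) (s z : ℕ → R) (m : Mat) : Prop :=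
  ∃ c ∈ m, ∀ x ∈ c, (x.1 = true ↔ Atm.Holds t r s z x.2)

/-- truth of a prenex formula; in the prefix `(true, i)` stands for `∃ z_i` and `(false, i)` for
`∀ z_i` -/
def Holds {R : Type*} [CommRing R] (t : R) (r : R → R → Prop) (s : ℕ → R) (m : Mat) :
    List (Bool × ℕ) → (ℕ → R) → Prop
  | [], z => MHolds t r s z m
  | (true, i) :: π, z => ∃ x : R, Holds t r s m π (Function.update z i x)
  | (false, i) :: π, z => ∀ x : R, Holds t r s m π (Function.update z i x)

/-- inputs: polynomials for the base, a prefix and a quantifier-free formula -/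
abbrev Inp := List PL × List (Bool × ℕ) × Mat

/-- the conditions on inputs -/
def Adm (p : ℕ) [Fact p.Prime] : Inp → Prop
  | (B, _, m) => (∀ i b, B[i]? = some b → Vars (i + 1) b) ∧
    ∀ c ∈ m, ∀ x ∈ c, Atm.Adm p B.length x.2

/-- the prenex formula holds at some point of the base (free variables `z_i` are read as `0`) -/
def PSol {R : Type*} [CommRing R] (t : R) (r : R → R → Prop) : Inp → Prop
  | (B, π, m) => ∃ s : ℕ → R, Base t B s ∧ Holds t r s m π fun _ => 0

end FO90
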