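import Pool.Agent.FO90.Same
import Pool.Agent.BF80.TargetG

/-!
# A subfield which embeds into two models, closed under roots in the first one
-/

set_option maxSynthPendingDepth 10

namespace FO90

open FT80 BF80 LD90 NS90

namespace Em

theorem ev_hom {R S : Type*} [CommRing R] [CommRing S] (φ : R →+* S) (t : R) (x : ℕ → R) (f : PL) :
    LD90.ev (φ t) (fun a => φ (x a)) f = φ (LD90.ev t x f) := by
  rw [LD90.ev, LD90.ev, map_list_sum, List.map_map]
  congr 1
  refine List.map_congr_left fun m _ => ?_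
  simp only [Function.comp_apply, map_mul, map_pow, map_list_prod, List.map_map]
  rfl

theorem ev_update {R S : Type*} [CommRing R] [CommRing S] (φ : R →+* S) (t : R) (x : ℕ → R) (i : ℕ)
    (w : R) (f : PL) : LD90.ev (φ t) (Function.update (fun a => φ (x a)) i (φ w)) f =
      φ (LD90.ev t (Function.update x i w) f) := by
  rw [← ev_hom]
  congr 1
  funext a
  rcases eq_or_ne a i with rfl | h
  · rw [Function.update_self, Function.update_self]
  · rw [Function.update_of_ne h, Function.update_of_ne h]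

/-- if a polynomial over an infinite field is not zero at some point of an extension, it is not zero
at some point of the field -/
theorem exists_ne {L E : Type*} [Field L] [Field E] [Infinite E] (e : E →+* L) (te : E)
    (s : ℕ → E) (i : ℕ) (b : PL) (z : L)
    (h : LD90.ev (e te) (Function.update (fun a => e (s a)) i z) b ≠ 0) :
    ∃ w : E, LD90.ev te (Function.update s i w) b ≠ 0 := by
  obtain ⟨Q, hQ⟩ : ∃ Q : Polynomial E, Q = LD90.ev (Polynomial.C te)
    (Function.update (fun a => Polynomial.C (s a)) i Polynomial.X) b := ⟨_, rfl⟩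
  have h1 : Polynomial.eval₂ e z Q = LD90.ev (e te) (Function.update (fun a => e (s a)) i z) b := by
    have h2 := ev_hom (Polynomial.eval₂RingHom e z) (Polynomial.C te)
      (Function.update (fun a => Polynomial.C (s a)) i Polynomial.X) b
    rw [Polynomial.coe_eval₂RingHom, ← hQ] at h2
    rw [← h2, Polynomial.eval₂_C]
    congr 1
    funext a
    rcases eq_or_ne a i with rfl | ha
    · rw [Function.update_self, Function.update_self, Polynomial.eval₂_X]
    · rw [Function.update_of_ne ha, Function.update_of_ne ha, Polynomial.eval₂_C]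
  have h3 : Q ≠ 0 := by
    rintro h0
    rw [h0, Polynomial.eval₂_zero] at h1
    exact h h1.symm
  obtain ⟨w, hw⟩ : ∃ w : E, Polynomial.eval w Q ≠ 0 := by
    by_contra hcon
    push Not at hcon
    apply h3
    apply Polynomial.funext
    intro r
    rw [hcon r, Polynomial.eval_zero]
  refine ⟨w, ?_⟩
  have h4 : Polynomial.eval w Q = LD90.ev te (Function.update s i w) b := by
    have h5 := ev_hom (Polynomial.evalRingHom w) (Polynomial.C te)
      (Function.update (fun a => Polynomial.C (s a)) i Polynomial.X) b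
    rw [Polynomial.coe_evalRingHom, ← hQ] at h5
    rw [← h5, Polynomial.eval_C]
    congr 1
    funext a
    rcases eq_or_ne a i with rfl | ha
    · rw [Function.update_self, Function.update_self, Polynomial.eval_X]
    · rw [Function.update_of_ne ha, Function.update_of_ne ha, Polynomial.eval_C]
  rw [← h4]
  exact hw

end Em

section

variable {p : ℕ} [hp : Fact p.Prime] {M1 M2 : Type} [Field M1] [Field M2] {σ1 : P1 p →+* M1}
  {σ2 : P1 p →+* M2}

/-- FO-4 (Emb.lean; helper52): a subfield closed under roots -/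
theorem emb_same (hM1 : Mdl p σ1) (hM2 : Mdl p σ2) {E : Type} [Field E] (e1 : E →+* M1)
    (e2 : E →+* M2) (te : E) (ht1 : e1 te = σ1 Polynomial.X) (ht2 : e2 te = σ2 Polynomial.X)
    (hroot : ∀ (z : M1) (n : ℕ), n ≠ 0 → z ^ n ∈ e1.fieldRange → z ∈ e1.fieldRange) {D : ℕ}
    (hD : ¬ p ∣ D) (x : E) (hx : x ≠ 0) : Same σ1 σ2 D (e1 x) (e2 x) := by
  have hD0 : D ≠ 0 := by
    rintro rfl
    exact hD (dvd_zero p)
  have hx1 : e1 x ≠ 0 := by
    rw [Ne, map_eq_zero]
    exact hx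
  obtain ⟨γ, hγ, j, -, y, h1, h2⟩ := hM1.pow D hD (e1 x) hx1
  have hpγ : ¬ p ∣ γ := fun h => absurd (Nat.le_of_dvd h1 h) (not_le.2 hγ)
  have hg : (γ : M1) ≠ 0 := natCast_ne hM1 hpγ
  have ht : σ1 Polynomial.X ≠ 0 := hM1.t_ne
  have hte : te ≠ 0 := by
    rintro rfl
    rw [map_zero] at ht1
    exact ht ht1.symm
  have hy0 : y ≠ 0 := by
    rintro rfl
    rw [zero_pow hD0, mul_zero] at h2
    exact hx1 h2
  have hgE : (γ : E) ≠ 0 := by
    intro h
    apply hg
    rw [← map_natCast e1, h, map_zero]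
  have hyD : y ^ D = e1 (x / (γ * te ^ j)) := by
    rw [map_div₀, map_mul, map_pow, map_natCast, ht1, h2]
    field_simp
  obtain ⟨y', hy'⟩ := hroot y D hD0 ⟨_, hyD.symm⟩
  have hyy : y' ≠ 0 := by
    rintro rfl
    rw [map_zero] at hy'
    exact hy0 hy'.symm
  have hxE : x = γ * te ^ j * y' ^ D := by
    apply e1.injective
    rw [map_mul, map_mul, map_pow, map_pow, map_natCast, ht1, hy']
    exact h2
  refine ⟨γ, j, y, e2 y', hpγ, hy0, ?_, h2, ?_⟩
  · rw [Ne, map_eq_zero]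
    exact hyy
  · rw [← ht2, ← map_natCast e2, ← map_pow, ← map_pow, ← map_mul, ← map_mul, ← hxE]

namespace Em

theorem vo_up {E : Type} [Field E] (e1 : E →+* M1) (e2 : E →+* M2) (te : E)
    (ht1 : e1 te = σ1 Polynomial.X) (ht2 : e2 te = σ2 Polynomial.X)
    (hquad : ∀ c y : M1, c ∈ e1.fieldRange → y ^ 2 + y = σ1 Polynomial.X * c ^ 2 →
      y ∈ e1.fieldRange) (w : E) (h : VO (σ1 Polynomial.X) (e1 w)) :
    VO (σ2 Polynomial.X) (e2 w) := by
  obtain ⟨y, hy⟩ := h
  obtain ⟨y', rfl⟩ := hquad (e1 w) y ⟨w, rfl⟩ hy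
  refine ⟨e2 y', ?_⟩
  have h1 : y' ^ 2 + y' = te * w ^ 2 := by
    apply e1.injective
    rw [map_add, map_pow, map_mul, map_pow, ht1]
    exact hy
  rw [← ht2, ← map_pow, ← map_add, h1, map_mul, map_pow]

theorem vo_iff (hM1 : Mdl p σ1) (hM2 : Mdl p σ2) {E : Type} [Field E] (e1 : E →+* M1)
    (e2 : E →+* M2) (te : E) (ht1 : e1 te = σ1 Polynomial.X) (ht2 : e2 te = σ2 Polynomial.X)
    (hquad : ∀ c y : M1, c ∈ e1.fieldRange → y ^ 2 + y = σ1 Polynomial.X * c ^ 2 →
      y ∈ e1.fieldRange) (w : E) :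
    VO (σ1 Polynomial.X) (e1 w) ↔ VO (σ2 Polynomial.X) (e2 w) := by
  refine ⟨vo_up e1 e2 te ht1 ht2 hquad w, fun h => ?_⟩
  by_contra hn
  have ht : σ1 Polynomial.X ≠ 0 := hM1.t_ne
  have ht' : σ2 Polynomial.X ≠ 0 := hM2.t_ne
  have hw : w ≠ 0 := by
    rintro rfl
    apply hn
    rw [map_zero]
    exact VO_zero _
  have hw1 : e1 w ≠ 0 := by rwa [Ne, map_eq_zero]
  have hw2 : e2 w ≠ 0 := by rwa [Ne, map_eq_zero]
  have h1 : 1 < hM1.fv (e1 w) := by
    rw [← not_le, hM1.fv_le_one]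
    exact hn
  have h2 : hM1.fv (e1 w⁻¹) < 1 := by
    rw [map_inv₀, map_inv₀]
    exact inv_lt_one_of_one_lt₀ h1
  have h3 := hM1.le_fv_t h2
  rw [TG.fv_le hM1 ht, ← ht1, ← map_div₀, ht1] at h3
  have h4 := vo_up e1 e2 te ht1 ht2 hquad _ h3
  rw [map_div₀, ht2, ← TG.fv_le hM2 ht'] at h4
  have h5 : hM2.fv (e2 w⁻¹) < 1 := lt_of_le_of_lt h4 hM2.fv_t_lt
  rw [map_inv₀, map_inv₀] at h5
  have h6 : (0 : hM2.VG) < hM2.fv (e2 w) := zero_lt_iff.2 ((Valuation.ne_zero_iff _).2 hw2)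
  have h7 : 1 < hM2.fv (e2 w) := (inv_lt_one₀ h6).1 h5
  exact absurd ((hM2.fv_le_one _).2 h) (not_le.2 h7)

end Em

/-- FO-4 (Emb.lean; helper52) -/
theorem emb_fv (hM1 : Mdl p σ1) (hM2 : Mdl p σ2) {E : Type} [Field E] (e1 : E →+* M1)
    (e2 : E →+* M2) (te : E) (ht1 : e1 te = σ1 Polynomial.X) (ht2 : e2 te = σ2 Polynomial.X)
    (hquad : ∀ c y : M1, c ∈ e1.fieldRange → y ^ 2 + y = σ1 Polynomial.X * c ^ 2 →
      y ∈ e1.fieldRange) (x y : E) :
    hM1.fv (e1 x) ≤ hM1.fv (e1 y) ↔ hM2.fv (e2 x) ≤ hM2.fv (e2 y) := by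
  rcases eq_or_ne y 0 with rfl | hy
  · rw [map_zero, map_zero, map_zero, map_zero, le_zero_iff, le_zero_iff, map_eq_zero, map_eq_zero,
      map_eq_zero, map_eq_zero]
  · have hy1 : e1 y ≠ 0 := by rwa [Ne, map_eq_zero]
    have hy2 : e2 y ≠ 0 := by rwa [Ne, map_eq_zero]
    rw [TG.fv_le hM1 hy1, TG.fv_le hM2 hy2, ← map_div₀, ← map_div₀]
    exact Em.vo_iff hM1 hM2 e1 e2 te ht1 ht2 hquad _

/-- FO-4 (Emb.lean; helper52): the base -/
theorem base_transfer {L1 L2 : Type} [Field L1] [Field L2] {E : Type} [Field E] [Infinite E]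
    (e1 : E →+* L1) (e2 : E →+* L2) (te : E) (B : List PL) (s : ℕ → E)
    (h : Base (e1 te) B fun i => e1 (s i)) : Base (e2 te) B fun i => e2 (s i) := by
  intro i b hb
  obtain ⟨h1, z, hz⟩ := h i b hb
  rw [Em.ev_hom, map_eq_zero] at h1
  refine ⟨by rw [Em.ev_hom, h1, map_zero], ?_⟩
  obtain ⟨w, hw⟩ := Em.exists_ne e1 te s (i + 1) b z hz
  refine ⟨e2 w, ?_⟩
  rw [Em.ev_update, Ne, map_eq_zero]
  exact hw

end

end FO90
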