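import Pool.Agent.DS90.LinMap
import Pool.Agent.FO90.Defs

/-!
# Elements of two models which cannot be distinguished
-/

set_option maxSynthPendingDepth 10

namespace FO90

open FT80 BF80 Polynomial

section defs

variable {p : ℕ} {M1 M2 : Type} [Field M1] [Field M2]

/-- nonzero elements of two models of the same class modulo `D`-th powers -/
def Same (σ1 : P1 p →+* M1) (σ2 : P1 p →+* M2) (D : ℕ) (a : M1) (b : M2) : Prop :=
  ∃ (γ i : ℕ) (m : M1) (n : M2), ¬ p ∣ γ ∧ m ≠ 0 ∧ n ≠ 0 ∧ a = γ * σ1 X ^ i * m ^ D ∧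
    b = γ * σ2 X ^ i * n ^ D

/-- both zero, or nonzero and of the same class -/
def Cl (σ1 : P1 p →+* M1) (σ2 : P1 p →+* M2) (D : ℕ) (a : M1) (b : M2) : Prop :=
  (a = 0 ∧ b = 0) ∨ Same σ1 σ2 D a b

variable [Fact p.Prime] {σ1 : P1 p →+* M1} {σ2 : P1 p →+* M2}

/-- families of the same classes and in the same order -/
def Eqv (hM1 : Mdl p σ1) (hM2 : Mdl p σ2) (D : ℕ) {ι : Type*} (I : Finset ι) (f1 : ι → M1)
    (f2 : ι → M2) : Prop :=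
  (∀ i ∈ I, Cl σ1 σ2 D (f1 i) (f2 i)) ∧
    ∀ i ∈ I, ∀ j ∈ I, (hM1.fv (f1 i) ≤ hM1.fv (f1 j) ↔ hM2.fv (f2 i) ≤ hM2.fv (f2 j))

/-- the extension of a semilinear map by a value at the new vector -/
def ext {E V M : Type*} [Field E] [Field M] [AddCommGroup V] [Module E V] (e : E →+* M)
    (ρ : V →ₛₗ[e] M) (w : M) : (V × E) →ₛₗ[e] M where
  toFun x := ρ x.1 + e x.2 * w
  map_add' x y := by
    rw [Prod.fst_add, Prod.snd_add, map_add, map_add]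
    ring
  map_smul' c x := by
    rw [Prod.smul_fst, Prod.smul_snd, map_smulₛₗ, smul_eq_mul, smul_eq_mul, smul_eq_mul, map_mul]
    ring

@[simp]
theorem ext_apply {E V M : Type*} [Field E] [Field M] [AddCommGroup V] [Module E V] (e : E →+* M)
    (ρ : V →ₛₗ[e] M) (w : M) (x : V × E) : ext e ρ w x = ρ x.1 + e x.2 * w := rfl

end defs

section basic

variable {p : ℕ} [hp : Fact p.Prime] {M1 M2 : Type} [Field M1] [Field M2] {σ1 : P1 p →+* M1}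
  {σ2 : P1 p →+* M2} {D : ℕ}

theorem Same.symm {a : M1} {b : M2} (h : Same σ1 σ2 D a b) : Same σ2 σ1 D b a := by
  obtain ⟨γ, i, m, n, h1, h2, h3, h4, h5⟩ := h
  exact ⟨γ, i, n, m, h1, h3, h2, h5, h4⟩

theorem Cl.symm {a : M1} {b : M2} (h : Cl σ1 σ2 D a b) : Cl σ2 σ1 D b a := by
  rcases h with ⟨h1, h2⟩ | h
  · exact Or.inl ⟨h2, h1⟩
  · exact Or.inr h.symm

theorem natCast_ne (hM1 : Mdl p σ1) {γ : ℕ} (h : ¬ p ∣ γ) : (γ : M1) ≠ 0 := by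
  have h3 : (γ : M1) = σ1 (C ((γ : ℕ) : ZMod p)) := by
    rw [C_eq_natCast, map_natCast]
  rw [h3, map_ne_zero_iff _ hM1.σ_injective, Ne, C_eq_zero, ZMod.natCast_eq_zero_iff]
  exact h

theorem Same.ne_left (hM1 : Mdl p σ1) {a : M1} {b : M2} (h : Same σ1 σ2 D a b) : a ≠ 0 := by
  obtain ⟨γ, i, m, n, h1, h2, h3, rfl, -⟩ := h
  exact mul_ne_zero (mul_ne_zero (natCast_ne hM1 h1) (pow_ne_zero _ hM1.t_ne)) (pow_ne_zero _ h2)

theorem Same.ne_right (hM2 : Mdl p σ2) {a : M1} {b : M2} (h : Same σ1 σ2 D a b) : b ≠ 0 :=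
  h.symm.ne_left hM2

theorem Same.mul {a a' : M1} {b b' : M2} (h : Same σ1 σ2 D a b)
    (h' : Same σ1 σ2 D a' b') : Same σ1 σ2 D (a * a') (b * b') := by
  obtain ⟨γ, i, m, n, h1, h2, h3, rfl, rfl⟩ := h
  obtain ⟨γ', i', m', n', h1', h2', h3', rfl, rfl⟩ := h'
  refine ⟨γ * γ', i + i', m * m', n * n', fun h => ?_, mul_ne_zero h2 h2', mul_ne_zero h3 h3', ?_,
    ?_⟩
  · rcases hp.out.dvd_mul.1 h with h | h
    · exact h1 h
    · exact h1' h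
  · push_cast
    ring
  · push_cast
    ring

theorem Same.natCast {c : ℕ} (hc : ¬ p ∣ c) : Same σ1 σ2 D (c : M1) (c : M2) :=
  ⟨c, 0, 1, 1, hc, one_ne_zero, one_ne_zero, by simp, by simp⟩

/-- the class in the first model -/
theorem Same.smL {a a' : M1} {b : M2} (h : Same σ1 σ2 D a b) (h' : DS90.Sm D a a') :
    Same σ1 σ2 D a' b := by
  obtain ⟨γ, i, m, n, h1, h2, h3, rfl, rfl⟩ := h
  obtain ⟨k, hk, rfl⟩ := h'
  exact ⟨γ, i, m * k, n, h1, mul_ne_zero h2 hk, h3, by ring, rfl⟩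

/-- the class in the second model -/
theorem Same.smR {a : M1} {b b' : M2} (h : Same σ1 σ2 D a b) (h' : DS90.Sm D b b') :
    Same σ1 σ2 D a b' := (h.symm.smL h').symm

theorem Cl.mul {a a' : M1} {b b' : M2} (h : Cl σ1 σ2 D a b)
    (h' : Cl σ1 σ2 D a' b') : Cl σ1 σ2 D (a * a') (b * b') := by
  rcases h with ⟨rfl, rfl⟩ | h
  · exact Or.inl ⟨zero_mul _, zero_mul _⟩
  · rcases h' with ⟨rfl, rfl⟩ | h'
    · exact Or.inl ⟨mul_zero _, mul_zero _⟩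
    · exact Or.inr (h.mul h')

theorem Cl.same {a : M1} {b : M2} (h : Cl σ1 σ2 D a b) (ha : a ≠ 0) : Same σ1 σ2 D a b := by
  rcases h with ⟨h1, -⟩ | h
  · exact absurd h1 ha
  · exact h

theorem Cl.zero_iff (hM1 : Mdl p σ1) (hM2 : Mdl p σ2) {a : M1} {b : M2}
    (h : Cl σ1 σ2 D a b) : a = 0 ↔ b = 0 := by
  rcases h with ⟨h1, h2⟩ | h
  · exact ⟨fun _ => h2, fun _ => h1⟩
  · exact ⟨fun h0 => absurd h0 (h.ne_left hM1), fun h0 => absurd h0 (h.ne_right hM2)⟩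

variable {hM1 : Mdl p σ1} {hM2 : Mdl p σ2} {ι : Type*} {I : Finset ι} {f1 : ι → M1} {f2 : ι → M2}

theorem Eqv.symm (h : Eqv hM1 hM2 D I f1 f2) : Eqv hM2 hM1 D I f2 f1 :=
  ⟨fun f hf => (h.1 f hf).symm, fun f hf g hg => (h.2 f hf g hg).symm⟩

theorem Eqv.mono {I' : Finset ι} (h : Eqv hM1 hM2 D I f1 f2) (hs : I' ⊆ I) :
    Eqv hM1 hM2 D I' f1 f2 :=
  ⟨fun f hf => h.1 f (hs hf), fun f hf g hg => h.2 f (hs hf) g (hs hg)⟩

theorem Eqv.lt (h : Eqv hM1 hM2 D I f1 f2) {f g : ι} (hf : f ∈ I) (hg : g ∈ I) :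
    hM1.fv (f1 f) < hM1.fv (f1 g) ↔ hM2.fv (f2 f) < hM2.fv (f2 g) := by
  rw [← not_le, ← not_le, h.2 g hg f hf]

theorem Eqv.eq (h : Eqv hM1 hM2 D I f1 f2) {f g : ι} (hf : f ∈ I) (hg : g ∈ I) :
    hM1.fv (f1 f) = hM1.fv (f1 g) ↔ hM2.fv (f2 f) = hM2.fv (f2 g) := by
  rw [le_antisymm_iff, le_antisymm_iff, h.2 f hf g hg, h.2 g hg f hf]

end basic

end FO90
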