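import Pool.Agent.FO90.Same

/-!
# One step of the back and forth for linear forms
-/

set_option maxSynthPendingDepth 10

namespace FO90

open FT80 BF80 DS90

namespace St

section step

variable {p : ℕ} [hp : Fact p.Prime] {M1 M2 : Type} [Field M1] [Field M2] {σ1 : P1 p →+* M1}
  {σ2 : P1 p →+* M2} (hM1 : Mdl p σ1) (hM2 : Mdl p σ2) {E : Type} [Field E] (e1 : E →+* M1)
  (e2 : E →+* M2) {V : Type} [AddCommGroup V] [Module E V]

/-- the requirements on the value at the new form -/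
def ZOk (D : ℕ) (H0 : Finset V) (w : M1) (ρ1 : V →ₛₗ[e1] M1) (ρ2 : V →ₛₗ[e2] M2) (z : M2) : Prop :=
  Same σ1 σ2 D w z ∧
    ∀ h ∈ H0, (hM1.fv (ρ1 h) < hM1.fv w ∧ hM2.fv (ρ2 h) < hM2.fv z) ∨
      (hM1.fv (ρ1 h) = hM1.fv w ∧ hM2.fv (ρ2 h) = hM2.fv z) ∨
      (hM1.fv w < hM1.fv (ρ1 h) ∧ hM2.fv z < hM2.fv (ρ2 h))

/-- assembly: `A` is the finite set of pairs `(a, h)`, the forms are the `a • (X + h)`; the value
of `X` is `w` in the first model and `z` in the second one -/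
theorem assemble {D : ℕ} (hD : ¬ p ∣ D) (hE : ∀ x : E, x ≠ 0 → Same σ1 σ2 D (e1 x) (e2 x))
    (hEv : ∀ x y : E, hM1.fv (e1 x) ≤ hM1.fv (e1 y) ↔ hM2.fv (e2 x) ≤ hM2.fv (e2 y))
    (S₀ : Finset V) (A : Finset (E × V)) (w : M1) (z : M2) (hw : w ≠ 0)
    (ρ1 : V →ₛₗ[e1] M1) (ρ2 : V →ₛₗ[e2] M2)
    (H0 S1 : Finset V)
    (hS₀ : ∀ f ∈ S₀, f ∈ S1 ∧ ∀ x ∈ A, x.1⁻¹ • f ∈ H0)
    (hA : ∀ x ∈ A, x.1 ≠ 0 ∧ hM1.fv w ≤ hM1.fv (w + ρ1 x.2) ∧
      x.2 ∈ H0 ∧ x.1 • x.2 ∈ S1 ∧ ∀ y ∈ A, y.1⁻¹ • x.1 • x.2 ∈ H0)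
    (hg : Eqv hM1 hM2 D S1 ρ1 ρ2) (hz : ZOk hM1 hM2 e1 e2 D H0 w ρ1 ρ2 z)
    (h3 : ∀ x ∈ A, hM1.fv (ρ1 x.2) = hM1.fv w → Same σ1 σ2 D (w + ρ1 x.2) (z + ρ2 x.2) ∧
      hM2.fv (z + ρ2 x.2) = hM2.fv z) {ι : Type*} (Λ : Finset ι) (ρ1' : ι → M1) (ρ2' : ι → M2)
    (hΛ : ∀ f ∈ Λ, (∃ v ∈ S₀, ρ1' f = ρ1 v ∧ ρ2' f = ρ2 v) ∨
      ∃ x ∈ A, ρ1' f = e1 x.1 * (w + ρ1 x.2) ∧ ρ2' f = e2 x.1 * (z + ρ2 x.2)) :
    Eqv hM1 hM2 D Λ ρ1' ρ2' := by
  have hzw : z ≠ 0 := hz.1.ne_right hM2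
  have hwv : hM1.fv w ≠ 0 := (Valuation.ne_zero_iff _).2 hw
  have hzv : hM2.fv z ≠ 0 := (Valuation.ne_zero_iff _).2 hzw
  -- classification
  have cls : ∀ f ∈ Λ, Cl σ1 σ2 D (ρ1' f) (ρ2' f) ∧
      ((∃ ρ ∈ S1, (∀ y ∈ A, y.1⁻¹ • ρ ∈ H0) ∧ hM1.fv (ρ1' f) = hM1.fv (ρ1 ρ) ∧
          hM2.fv (ρ2' f) = hM2.fv (ρ2 ρ)) ∨
        ∃ x ∈ A, hM1.fv (ρ1' f) = hM1.fv (e1 x.1 * w) ∧
          hM2.fv (ρ2' f) = hM2.fv (e2 x.1 * z)) := by
    intro f hf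
    rcases hΛ f hf with ⟨v, hf0, hf1, hf2⟩ | ⟨x, hx, hf1, hf2⟩
    · obtain ⟨h4, h6⟩ := hS₀ v hf0
      rw [hf1, hf2]
      exact ⟨hg.1 v h4, Or.inl ⟨v, h4, h6, rfl, rfl⟩⟩
    · obtain ⟨hx1, hx2, hH, hS1, hy⟩ := hA x hx
      have key : (Same σ1 σ2 D (w + ρ1 x.2) (z + ρ2 x.2) ∧ hM1.fv (w + ρ1 x.2) = hM1.fv w ∧
          hM2.fv (z + ρ2 x.2) = hM2.fv z) ∨
          (hM1.fv (w + ρ1 x.2) = hM1.fv (ρ1 x.2) ∧ hM2.fv (z + ρ2 x.2) = hM2.fv (ρ2 x.2) ∧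
            Sm D (ρ1 x.2) (w + ρ1 x.2) ∧ Sm D (ρ2 x.2) (z + ρ2 x.2) ∧ ρ1 x.2 ≠ 0) := by
        rcases hz.2 x.2 hH with ⟨h4, h5⟩ | ⟨h4, h5⟩ | ⟨h4, h5⟩
        · left
          exact ⟨(hz.1.smL (sm_add hM1 hD h4)).smR (sm_add hM2 hD h5), fv_add hM1 h4,
            fv_add hM2 h5⟩
        · left
          obtain ⟨h6, h7⟩ := h3 x hx h4
          refine ⟨h6, le_antisymm ?_ hx2, h7⟩
          refine (Valuation.map_add _ _ _).trans ?_
          rw [h4, max_self]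
        · right
          refine ⟨?_, ?_, ?_, ?_, ?_⟩
          · rw [add_comm]
            exact fv_add hM1 h4
          · rw [add_comm]
            exact fv_add hM2 h5
          · rw [add_comm]
            exact sm_add hM1 hD h4
          · rw [add_comm]
            exact sm_add hM2 hD h5
          · intro h0
            rw [h0, map_zero] at h4
            exact absurd h4 (not_lt.2 zero_le)
      rw [hf1, hf2]
      rcases key with ⟨h4, h5, h6⟩ | ⟨h7, h8, h9, h10, h0⟩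
      · refine ⟨Or.inr ((hE x.1 hx1).mul h4), Or.inr ⟨x, hx, ?_, ?_⟩⟩
        · rw [map_mul, map_mul, h5]
        · rw [map_mul, map_mul, h6]
      · have h11 := hg.1 _ hS1
        have e1' : ρ1 (x.1 • x.2) = e1 x.1 * ρ1 x.2 := by
          rw [map_smulₛₗ, smul_eq_mul]
        have e2' : ρ2 (x.1 • x.2) = e2 x.1 * ρ2 x.2 := by
          rw [map_smulₛₗ, smul_eq_mul]
        rw [e1', e2'] at h11
        have h12 := h11.same (mul_ne_zero ((map_ne_zero e1).2 hx1) h0)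
        refine ⟨Or.inr ?_, Or.inl ⟨x.1 • x.2, hS1, hy, ?_, ?_⟩⟩
        · exact (h12.smL (h9.mul _)).smR (h10.mul _)
        · rw [e1', map_mul, map_mul, h7]
        · rw [e2', map_mul, map_mul, h8]
  -- comparison with multiples of `w`
  have cmp : ∀ x ∈ A, ∀ ρ : V, x.1⁻¹ • ρ ∈ H0 →
      (hM1.fv (ρ1 ρ) ≤ hM1.fv (e1 x.1 * w) ↔ hM2.fv (ρ2 ρ) ≤ hM2.fv (e2 x.1 * z)) ∧
      (hM1.fv (e1 x.1 * w) ≤ hM1.fv (ρ1 ρ) ↔ hM2.fv (e2 x.1 * z) ≤ hM2.fv (ρ2 ρ)) := by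
    intro x hx ρ hρ
    have hx0 := (hA x hx).1
    have hx1 : e1 x.1 ≠ 0 := (map_ne_zero e1).2 hx0
    have hx2 : e2 x.1 ≠ 0 := (map_ne_zero e2).2 hx0
    have hxv1 : (0 : hM1.VG) < hM1.fv (e1 x.1) := zero_lt_iff.2 ((Valuation.ne_zero_iff _).2 hx1)
    have hxv2 : (0 : hM2.VG) < hM2.fv (e2 x.1) := zero_lt_iff.2 ((Valuation.ne_zero_iff _).2 hx2)
    have f1 : hM1.fv (ρ1 ρ) = hM1.fv (e1 x.1) * hM1.fv (ρ1 (x.1⁻¹ • ρ)) := by
      rw [← map_mul, map_smulₛₗ, smul_eq_mul, map_inv₀, mul_inv_cancel_left₀ hx1]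
    have f2 : hM2.fv (ρ2 ρ) = hM2.fv (e2 x.1) * hM2.fv (ρ2 (x.1⁻¹ • ρ)) := by
      rw [← map_mul, map_smulₛₗ, smul_eq_mul, map_inv₀, mul_inv_cancel_left₀ hx2]
    rw [f1, f2, map_mul, map_mul, mul_le_mul_iff_right₀ hxv1, mul_le_mul_iff_right₀ hxv2,
      mul_le_mul_iff_right₀ hxv1, mul_le_mul_iff_right₀ hxv2]
    rcases hz.2 _ hρ with ⟨h4, h5⟩ | ⟨h4, h5⟩ | ⟨h4, h5⟩
    · exact ⟨⟨fun _ => h5.le, fun _ => h4.le⟩,
        ⟨fun h => absurd h (not_le.2 h4), fun h => absurd h (not_le.2 h5)⟩⟩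
    · exact ⟨⟨fun _ => h5.le, fun _ => h4.le⟩, ⟨fun _ => h5.ge, fun _ => h4.ge⟩⟩
    · exact ⟨⟨fun h => absurd h (not_le.2 h4), fun h => absurd h (not_le.2 h5)⟩,
        ⟨fun _ => h5.le, fun _ => h4.le⟩⟩
  refine ⟨fun f hf => (cls f hf).1, fun f hf g hg' => ?_⟩
  rcases (cls f hf).2 with ⟨ρ, h4, h5, h6, h7⟩ | ⟨x, hx, h6, h7⟩ <;>
    rcases (cls g hg').2 with ⟨ρ', h4', h5', h6', h7'⟩ | ⟨x', hx', h6', h7'⟩
  · rw [h6, h7, h6', h7']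
    exact hg.2 ρ h4 ρ' h4'
  · rw [h6, h7, h6', h7']
    exact (cmp x' hx' ρ (h5 x' hx')).1
  · rw [h6, h7, h6', h7']
    exact (cmp x hx ρ' (h5' x hx)).2
  · rw [h6, h7, h6', h7', map_mul, map_mul, map_mul, map_mul,
      mul_le_mul_iff_left₀ (zero_lt_iff.2 hwv), mul_le_mul_iff_left₀ (zero_lt_iff.2 hzv)]
    exact hEv x.1 x'.1

/-- the choice of the value of `X` in the second model -/
theorem choice (te : E) (ht1 : e1 te = σ1 Polynomial.X) (ht2 : e2 te = σ2 Polynomial.X) {D : ℕ}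
    (hD : ¬ p ∣ D) (A : Finset (E × V)) (w : M1) (hw0 : w ≠ 0) (ρ1 : V →ₛₗ[e1] M1)
    (ρ2 : V →ₛₗ[e2] M2) (H0 H S1 : Finset V)
    (hA : ∀ x ∈ A, hM1.fv w ≤ hM1.fv (w + ρ1 x.2) ∧ x.2 ∈ H)
    (m4 : ∀ h ∈ H0, ∀ k ≤ D, (te ^ k)⁻¹ • h ∈ H) (m7 : ∀ h ∈ H, h ∈ S1)
    (m10 : ∀ x ∈ A, ∀ h ∈ H, ∀ c < p, x.2 - (c : E) • h ∈ S1)
    (hg : Eqv hM1 hM2 D S1 ρ1 ρ2) :
    ∃ z : M2, ZOk hM1 hM2 e1 e2 D H0 w ρ1 ρ2 z ∧ ∀ x ∈ A, hM1.fv (ρ1 x.2) = hM1.fv w →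
      Same σ1 σ2 D (w + ρ1 x.2) (z + ρ2 x.2) ∧ hM2.fv (z + ρ2 x.2) = hM2.fv z := by
  classical
  have ht := hM1.t_ne
  have ht' := hM2.t_ne
  have m5 : ∀ h ∈ H0, h ∈ H := by
    intro h hh
    have := m4 h hh 0 (Nat.zero_le _)
    rwa [pow_zero, inv_one, one_smul] at this
  have ρz : ∀ h ∈ S1, ρ1 h = 0 ↔ ρ2 h = 0 := fun h hh => (hg.1 h hh).zero_iff hM1 hM2
  have hwv : (0 : hM1.VG) < hM1.fv w := zero_lt_iff.2 ((Valuation.ne_zero_iff _).2 hw0)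
  have r1 : ∀ (k : ℕ) (h : V), ρ1 ((te ^ k)⁻¹ • h) = (σ1 Polynomial.X ^ k)⁻¹ * ρ1 h := by
    intro k h
    rw [map_smulₛₗ, smul_eq_mul, map_inv₀, map_pow, ht1]
  have r2 : ∀ (k : ℕ) (h : V), ρ2 ((te ^ k)⁻¹ • h) = (σ2 Polynomial.X ^ k)⁻¹ * ρ2 h := by
    intro k h
    rw [map_smulₛₗ, smul_eq_mul, map_inv₀, map_pow, ht2]
  have n1 : ∀ (c : ℕ) (h : V), ρ1 ((c : E) • h) = c * ρ1 h := by
    intro c h
    rw [map_smulₛₗ, smul_eq_mul, map_natCast]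
  have n2 : ∀ (c : ℕ) (h : V), ρ2 ((c : E) • h) = c * ρ2 h := by
    intro c h
    rw [map_smulₛₗ, smul_eq_mul, map_natCast]
  by_cases hcase : ∃ h ∈ H, hM1.fv (ρ1 h) = hM1.fv w
  · -- case 1
    obtain ⟨h, hh, hv⟩ := hcase
    have hne : ρ1 h ≠ 0 := by
      intro h0
      rw [h0, map_zero] at hv
      exact hwv.ne hv
    have hhS := m7 h hh
    have hne2 : ρ2 h ≠ 0 := fun h0 => hne ((ρz h hhS).2 h0)
    obtain ⟨c, hc1, hc2, hc3⟩ := residue hM1 hne hv.symm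
    have hzv : hM2.fv ((c : M2) * ρ2 h) = hM2.fv (ρ2 h) := fv_natCast_mul hM2 hc1 hc2 _
    have hpc : ¬ p ∣ c := fun h => absurd (Nat.le_of_dvd hc1 h) (not_le.2 hc2)
    have hsame : Same σ1 σ2 D (ρ1 h) (ρ2 h) := (hg.1 h hhS).same hne
    refine ⟨(c : M2) * ρ2 h, ⟨?_, fun h' hh' => ?_⟩, fun x hx hxv => ?_⟩
    · -- class of `w`
      have h1 : Sm D ((c : M1) * ρ1 h) w := by
        have := sm_add hM1 hD (f := (c : M1) * ρ1 h) (g := w - c * ρ1 h) (by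
          rw [fv_natCast_mul hM1 hc1 hc2]
          exact hc3)
        rwa [add_sub_cancel] at this
      exact ((Same.natCast hpc).mul hsame).smL h1
    · have hh'S := m7 h' (m5 h' hh')
      rw [hzv, ← hv]
      rcases lt_trichotomy (hM1.fv (ρ1 h')) (hM1.fv (ρ1 h)) with h1 | h1 | h1
      · exact Or.inl ⟨h1, (hg.lt hh'S hhS).1 h1⟩
      · exact Or.inr (Or.inl ⟨h1, (hg.eq hh'S hhS).1 h1⟩)
      · exact Or.inr (Or.inr ⟨h1, (hg.lt hhS hh'S).1 h1⟩)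
    · obtain ⟨c', hc1', hc2', hc3'⟩ := residue hM1 hne (hxv.trans hv.symm)
      have hmin := (hA x hx).1
      -- the sum of the residues is not zero
      have hcc : ¬ p ∣ c + c' := by
        intro hcc
        have h1 : ((c + c' : ℕ) : M1) = 0 := by
          have h2 : σ1 (Polynomial.C ((c + c' : ℕ) : ZMod p)) = 0 := by
            rw [(ZMod.natCast_eq_zero_iff _ _).2 hcc, Polynomial.C_0, map_zero]
          rwa [Polynomial.C_eq_natCast, map_natCast] at h2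
        have h2 : w + ρ1 x.2 = (w - c * ρ1 h) + (ρ1 x.2 - c' * ρ1 h) := by
          push_cast at h1
          linear_combination (ρ1 h) * h1
        have h3 : hM1.fv (w + ρ1 x.2) < hM1.fv (ρ1 h) := by
          rw [h2]
          exact Valuation.map_add_lt _ hc3 hc3'
        rw [hv] at h3
        exact absurd hmin (not_le.2 h3)
      have hcv1 : ∀ y : M1, hM1.fv (((c + c' : ℕ) : M1) * y) = hM1.fv y := by
        intro y
        have h3 : ((c + c' : ℕ) : M1) = σ1 (Polynomial.C ((c + c' : ℕ) : ZMod p)) := by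
          rw [Polynomial.C_eq_natCast, map_natCast]
        have h5 := hM1.unit_σ (f := Polynomial.C ((c + c' : ℕ) : ZMod p))
          (by rw [Polynomial.coeff_C_zero, Ne, ZMod.natCast_eq_zero_iff]; exact hcc)
        rw [map_mul, h3, hM1.fv_eq_one h5.1 (hM1.VO_σ _) h5.2, one_mul]
      have hcv2 : ∀ y : M2, hM2.fv (((c + c' : ℕ) : M2) * y) = hM2.fv y := by
        intro y
        have h3 : ((c + c' : ℕ) : M2) = σ2 (Polynomial.C ((c + c' : ℕ) : ZMod p)) := by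
          rw [Polynomial.C_eq_natCast, map_natCast]
        have h5 := hM2.unit_σ (f := Polynomial.C ((c + c' : ℕ) : ZMod p))
          (by rw [Polynomial.coeff_C_zero, Ne, ZMod.natCast_eq_zero_iff]; exact hcc)
        rw [map_mul, h3, hM2.fv_eq_one h5.1 (hM2.VO_σ _) h5.2, one_mul]
      have h1 : Sm D (((c + c' : ℕ) : M1) * ρ1 h) (w + ρ1 x.2) := by
        have := sm_add hM1 hD (f := ((c + c' : ℕ) : M1) * ρ1 h)
          (g := (w - c * ρ1 h) + (ρ1 x.2 - c' * ρ1 h)) (by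
            rw [hcv1]
            exact Valuation.map_add_lt _ hc3 hc3')
        have h2 : ((c + c' : ℕ) : M1) * ρ1 h + ((w - c * ρ1 h) + (ρ1 x.2 - c' * ρ1 h)) =
            w + ρ1 x.2 := by
          push_cast
          ring
        rwa [h2] at this
      have hd : hM2.fv (ρ2 (x.2 - (c' : E) • h)) < hM2.fv (ρ2 h) := by
        refine (hg.lt (m10 x hx h hh c' hc2') hhS).1 ?_
        rw [map_sub, n1]
        exact hc3'
      have h3 : (c : M2) * ρ2 h + ρ2 x.2 =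
          ((c + c' : ℕ) : M2) * ρ2 h + ρ2 (x.2 - (c' : E) • h) := by
        rw [map_sub, n2]
        push_cast
        ring
      rw [h3, hzv]
      refine ⟨(((Same.natCast hcc).mul hsame).smL h1).smR (sm_add hM2 hD (by rw [hcv2]; exact hd)),
        ?_⟩
      rw [fv_add hM2 (by rw [hcv2]; exact hd), hcv2]
  · -- case 2
    push Not at hcase
    suffices hz : ∃ z : M2, ZOk hM1 hM2 e1 e2 D H0 w ρ1 ρ2 z by
      obtain ⟨z, hz⟩ := hz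
      exact ⟨z, hz, fun x hx hxv => absurd hxv (hcase _ (hA x hx).2)⟩
    -- the class of `w`
    obtain ⟨γ, hγ, i, hi, y, hγ1, hy⟩ := hM1.pow D hD w hw0
    have hpγ : ¬ p ∣ γ := fun h => absurd (Nat.le_of_dvd hγ1 h) (not_le.2 hγ)
    have hD0 : D ≠ 0 := fun h0 => hD (h0 ▸ dvd_zero p)
    have hy0 : y ≠ 0 := by
      rintro rfl
      rw [zero_pow hD0, mul_zero] at hy
      exact hw0 hy
    have hx0 : (γ : M2) * σ2 Polynomial.X ^ i ≠ 0 :=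
      mul_ne_zero (natCast_ne hM2 hpγ) (pow_ne_zero _ ht')
    have hcl : ∀ z : M2, Sm D ((γ : M2) * σ2 Polynomial.X ^ i) z → Same σ1 σ2 D w z := by
      rintro z ⟨m, hm, rfl⟩
      exact ⟨γ, i, y, m, hpγ, hy0, hm, hy, rfl⟩
    have hex : ∀ u : M2, u ≠ 0 → ∃ z : M2, z ≠ 0 ∧ Same σ1 σ2 D w z ∧ hM2.fv u < hM2.fv z ∧
        hM2.fv (σ2 Polynomial.X ^ D * z) ≤ hM2.fv u := by
      intro u hu
      obtain ⟨z, -, h1, h2, h3, h4⟩ := exists_class hM2 ⊤ (Subfield.mem_top _)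
        (fun z n _ _ => Subfield.mem_top z) hD (Subfield.mem_top u) hu hx0
      exact ⟨z, h1, hcl z h2, h3, h4⟩
    have ht0 : (0 : hM2.VG) < hM2.fv (σ2 Polynomial.X) :=
      zero_lt_iff.2 ((Valuation.ne_zero_iff _).2 ht')
    by_cases hlow : ∃ h ∈ H0, ρ1 h ≠ 0 ∧ hM1.fv (ρ1 h) < hM1.fv w
    · obtain ⟨h1, hh1, hh10, hlt1⟩ := hlow
      obtain ⟨h, hh, hmax⟩ := Finset.exists_max_image (H0.filter fun h => hM1.fv (ρ1 h) < hM1.fv w)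
        (fun h => hM1.fv (ρ1 h)) ⟨h1, Finset.mem_filter.2 ⟨hh1, hlt1⟩⟩
      have hne : ρ1 h ≠ 0 := by
        intro h0
        have h2 := hmax h1 (Finset.mem_filter.2 ⟨hh1, hlt1⟩)
        simp only [h0, map_zero, le_zero_iff] at h2
        exact hh10 ((Valuation.zero_iff _).1 h2)
      rw [Finset.mem_filter] at hh
      obtain ⟨hh, hlt⟩ := hh
      have hhS := m7 h (m5 h hh)
      have hne2 : ρ2 h ≠ 0 := fun h0 => hne ((ρz h hhS).2 h0)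
      obtain ⟨z, hz0, hz1, hz2, hz3⟩ := hex (ρ2 h) hne2
      refine ⟨z, hz1, fun h' hh' => ?_⟩
      have hh'S := m7 h' (m5 h' hh')
      rcases lt_trichotomy (hM1.fv (ρ1 h')) (hM1.fv w) with h2 | h2 | h2
      · left
        refine ⟨h2, lt_of_le_of_lt ?_ hz2⟩
        exact (hg.2 h' hh'S h hhS).1 (hmax h' (Finset.mem_filter.2 ⟨hh', h2⟩))
      · exact absurd h2 (hcase h' (m5 h' hh'))
      · right
        right
        refine ⟨h2, ?_⟩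
        have h3 := gap hM1 hne D (fun k hk => by
          rw [← r1]
          exact hcase _ (m4 h hh k hk)) hlt D le_rfl
        rw [← r1] at h3
        have h4 := (hg.lt (m7 _ (m4 h hh D le_rfl)) hh'S).1 (h3.trans h2)
        refine lt_of_le_of_lt ?_ h4
        rw [r2, map_mul, map_inv₀, map_pow, le_inv_mul_iff₀ (pow_pos ht0 _), ← map_pow, ← map_mul]
        exact hz3
    · push Not at hlow
      have hup : ∀ h ∈ H0, ρ1 h ≠ 0 → hM1.fv w < hM1.fv (ρ1 h) := fun h hh hne =>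
        lt_of_le_of_ne (hlow h hh hne) (fun h' => hcase h (m5 h hh) h'.symm)
      have hzero : ∀ z : M2, z ≠ 0 → ∀ h ∈ H0, ρ1 h = 0 →
          (hM1.fv (ρ1 h) < hM1.fv w ∧ hM2.fv (ρ2 h) < hM2.fv z) := by
        intro z hz0 h hh h0
        rw [h0, (ρz h (m7 h (m5 h hh))).1 h0, map_zero, map_zero]
        exact ⟨hwv, zero_lt_iff.2 ((Valuation.ne_zero_iff _).2 hz0)⟩
      rcases (H0.filter fun h => ρ1 h ≠ 0).eq_empty_or_nonempty with he | hne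
      · obtain ⟨z, hz0, hz1, -, -⟩ := hex 1 one_ne_zero
        refine ⟨z, hz1, fun h hh => ?_⟩
        by_cases h0 : ρ1 h = 0
        · exact Or.inl (hzero z hz0 h hh h0)
        · have h1 : h ∈ H0.filter fun h => ρ1 h ≠ 0 := Finset.mem_filter.2 ⟨hh, h0⟩
          rw [he] at h1
          exact absurd h1 (Finset.notMem_empty _)
      · obtain ⟨h, hh, hmin⟩ := Finset.exists_min_image _ (fun h => hM1.fv (ρ1 h)) hne
        rw [Finset.mem_filter] at hh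
        have hhS := m7 h (m5 h hh.1)
        have hne2 : ρ2 h ≠ 0 := fun h0 => hh.2 ((ρz h hhS).2 h0)
        obtain ⟨z, hz0, hz1, -, hz3⟩ := hex (σ2 Polynomial.X ^ (D + 1) * ρ2 h)
          (mul_ne_zero (pow_ne_zero _ ht') hne2)
        refine ⟨z, hz1, fun h' hh' => ?_⟩
        by_cases h0 : ρ1 h' = 0
        · exact Or.inl (hzero z hz0 h' hh' h0)
        · refine Or.inr (Or.inr ⟨hup h' hh' h0, ?_⟩)
          have hh'S := m7 h' (m5 h' hh')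
          refine lt_of_lt_of_le ?_ ((hg.2 h hhS h' hh'S).1
            (hmin h' (Finset.mem_filter.2 ⟨hh', h0⟩)))
          have h5 : hM2.fv z ≤ hM2.fv (σ2 Polynomial.X * ρ2 h) := by
            rw [pow_succ, mul_assoc, map_mul, map_mul (hM2.fv) (σ2 Polynomial.X ^ D)] at hz3
            exact (mul_le_mul_iff_right₀ (by rw [map_pow]; exact pow_pos ht0 _)).1 hz3
          refine lt_of_le_of_lt h5 ?_
          rw [map_mul]
          calc hM2.fv (σ2 Polynomial.X) * hM2.fv (ρ2 h) < 1 * hM2.fv (ρ2 h) :=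
                mul_lt_mul_of_pos_right hM2.fv_t_lt
                  (zero_lt_iff.2 ((Valuation.ne_zero_iff _).2 hne2))
            _ = hM2.fv (ρ2 h) := one_mul _

end step

section fin

variable {E : Type} [Field E] [DecidableEq E] {V : Type} [AddCommGroup V] [Module E V]
  [DecidableEq V]

/-- the forms without `X` -/
def S0 (Λ : Finset (V × E)) : Finset V := (Λ.filter fun x => x.2 = 0).image fun x => x.1

/-- the differences to the form `ν` -/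
def DA (Λ : Finset (V × E)) (ν : V × E) : Finset (E × V) :=
  (Λ.filter fun x => x.2 ≠ 0).image fun x => (x.2, x.2⁻¹ • x.1 - ν.2⁻¹ • ν.1)

/-- the forms to be compared with `X` -/
def HB (S : Finset V) (A : Finset (E × V)) : Finset V :=
  ((A ×ˢ A).image fun x => x.1.1⁻¹ • x.2.1 • x.2.2) ∪ ((A ×ˢ S).image fun x => x.1.1⁻¹ • x.2)

/-- with powers of `t` -/
def HH (te : E) (D : ℕ) (H0 : Finset V) : Finset V :=
  (H0 ×ˢ Finset.range (D + 1)).image fun x => (te ^ x.2)⁻¹ • x.1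

/-- all forms for the choice of the form `ν` -/
def SS (te : E) (p D : ℕ) (S : Finset V) (A : Finset (E × V)) : Finset V :=
  S ∪ (A.image fun x => x.1 • x.2) ∪ HH te D (HB S A) ∪
    ((A ×ˢ HH te D (HB S A) ×ˢ Finset.range p).image fun x => x.1.2 - (x.2.2 : E) • x.2.1)

/-- all forms -/
def LL (te : E) (p D : ℕ) (Λ : Finset (V × E)) : Finset V :=
  Λ.image (fun x => x.1) ∪ ((Λ ×ˢ Λ).image fun x => x.1.1 - (x.1.2 * x.2.2⁻¹) • x.2.1) ∪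
    Λ.biUnion fun ν => SS te p D (S0 Λ) (DA Λ ν)

end fin

end St

section main

open St

variable {p : ℕ} [hp : Fact p.Prime] {M1 M2 : Type} [Field M1] [Field M2] {σ1 : P1 p →+* M1}
  {σ2 : P1 p →+* M2} (hM1 : Mdl p σ1) (hM2 : Mdl p σ2) {E : Type} [Field E] (e1 : E →+* M1)
  (e2 : E →+* M2) (te : E) (ht1 : e1 te = σ1 Polynomial.X) (ht2 : e2 te = σ2 Polynomial.X)

include hM1 hM2 ht1 ht2

/-- FO-1 (Step.lean): one step of the back and forth -/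
theorem one_step {D : ℕ} (hD : ¬ p ∣ D) (hE : ∀ x : E, x ≠ 0 → Same σ1 σ2 D (e1 x) (e2 x))
    (hEv : ∀ x y : E, hM1.fv (e1 x) ≤ hM1.fv (e1 y) ↔ hM2.fv (e2 x) ≤ hM2.fv (e2 y))
    {V : Type} [AddCommGroup V] [Module E V] (Λ : Finset (V × E)) :
    ∃ Λ' : Finset V, ∀ (ρ1 : V →ₛₗ[e1] M1) (ρ2 : V →ₛₗ[e2] M2), Eqv hM1 hM2 D Λ' ρ1 ρ2 →
      ∀ w1 : M1, ∃ w2 : M2, Eqv hM1 hM2 D Λ (ext e1 ρ1 w1) (ext e2 ρ2 w2) := by
  classical
  refine ⟨LL te p D Λ, fun ρ1 ρ2 hg w1 => ?_⟩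
  have sub1 : ∀ x ∈ Λ, x.1 ∈ LL te p D Λ := fun x hx => Finset.mem_union_left _
    (Finset.mem_union_left _ (Finset.mem_image.2 ⟨x, hx, rfl⟩))
  have sub2 : ∀ x ∈ Λ, ∀ ν ∈ Λ, x.1 - (x.2 * ν.2⁻¹) • ν.1 ∈ LL te p D Λ := fun x hx ν hν =>
    Finset.mem_union_left _ (Finset.mem_union_right _ (Finset.mem_image.2
      ⟨(x, ν), Finset.mk_mem_product hx hν, rfl⟩))
  have sub3 : ∀ ν ∈ Λ, SS te p D (S0 Λ) (DA Λ ν) ⊆ LL te p D Λ := fun ν hν f hf =>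
    Finset.mem_union_right _ (Finset.mem_biUnion.2 ⟨ν, hν, hf⟩)
  rcases (Λ.filter fun x => x.2 ≠ 0).eq_empty_or_nonempty with he | hne
  · -- the new form does not occur
    have h0 : ∀ x ∈ Λ, x.2 = 0 := by
      intro x hx
      by_contra h
      have h1 : x ∈ Λ.filter fun x => x.2 ≠ 0 := Finset.mem_filter.2 ⟨hx, h⟩
      rw [he] at h1
      exact absurd h1 (Finset.notMem_empty _)
    have v1 : ∀ x ∈ Λ, ext e1 ρ1 w1 x = ρ1 x.1 := by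
      intro x hx
      rw [ext_apply, h0 x hx, map_zero, zero_mul, add_zero]
    have v2 : ∀ x ∈ Λ, ext e2 ρ2 0 x = ρ2 x.1 := by
      intro x hx
      rw [ext_apply, mul_zero, add_zero]
    refine ⟨0, fun x hx => ?_, fun x hx y hy => ?_⟩
    · rw [v1 x hx, v2 x hx]
      exact hg.1 _ (sub1 x hx)
    · rw [v1 x hx, v2 x hx, v1 y hy, v2 y hy]
      exact hg.2 _ (sub1 x hx) _ (sub1 y hy)
  by_cases hz : ∃ ν ∈ Λ, ν.2 ≠ 0 ∧ w1 + ρ1 (ν.2⁻¹ • ν.1) = 0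
  · -- one of the forms vanishes
    obtain ⟨ν, hν, hν0, hw⟩ := hz
    have v1 : ∀ x ∈ Λ, ext e1 ρ1 w1 x = ρ1 (x.1 - (x.2 * ν.2⁻¹) • ν.1) := by
      intro x hx
      have hw' : w1 = - (e1 ν.2⁻¹ * ρ1 ν.1) := by
        rw [map_smulₛₗ, smul_eq_mul] at hw
        linear_combination hw
      rw [ext_apply, map_sub, map_smulₛₗ, smul_eq_mul, map_mul, hw']
      ring
    have v2 : ∀ x ∈ Λ, ext e2 ρ2 (- (e2 ν.2⁻¹ * ρ2 ν.1)) x =
        ρ2 (x.1 - (x.2 * ν.2⁻¹) • ν.1) := by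
      intro x hx
      rw [ext_apply, map_sub, map_smulₛₗ, smul_eq_mul, map_mul]
      ring
    refine ⟨- (e2 ν.2⁻¹ * ρ2 ν.1), fun x hx => ?_, fun x hx y hy => ?_⟩
    · rw [v1 x hx, v2 x hx]
      exact hg.1 _ (sub2 x hx ν hν)
    · rw [v1 x hx, v2 x hx, v1 y hy, v2 y hy]
      exact hg.2 _ (sub2 x hx ν hν) _ (sub2 y hy ν hν)
  push Not at hz
  obtain ⟨ν, hν, hmin⟩ := Finset.exists_min_image _
    (fun x => hM1.fv (w1 + ρ1 (x.2⁻¹ • x.1))) hne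
  rw [Finset.mem_filter] at hν
  obtain ⟨hν, hν0⟩ := hν
  obtain ⟨w, hwdef⟩ : ∃ w, w = w1 + ρ1 (ν.2⁻¹ • ν.1) := ⟨_, rfl⟩
  have hw0 : w ≠ 0 := by
    rw [hwdef]
    exact hz ν hν hν0
  obtain ⟨S, hS⟩ : ∃ S, S = S0 Λ := ⟨_, rfl⟩
  obtain ⟨A, hAdef⟩ : ∃ A, A = DA Λ ν := ⟨_, rfl⟩
  have hg' : Eqv hM1 hM2 D (SS te p D S A) ρ1 ρ2 := by
    rw [hS, hAdef]
    exact hg.mono (sub3 ν hν)
  have memA : ∀ x ∈ A, x.1 ≠ 0 ∧ hM1.fv w ≤ hM1.fv (w + ρ1 x.2) := by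
    intro x hx
    rw [hAdef, DA, Finset.mem_image] at hx
    obtain ⟨f, hf, rfl⟩ := hx
    refine ⟨(Finset.mem_filter.1 hf).2, ?_⟩
    have h1 : w + ρ1 (f.2⁻¹ • f.1 - ν.2⁻¹ • ν.1) = w1 + ρ1 (f.2⁻¹ • f.1) := by
      rw [hwdef, map_sub]
      ring
    rw [h1, hwdef]
    exact hmin f hf
  have mHB1 : ∀ x ∈ A, ∀ y ∈ A, y.1⁻¹ • x.1 • x.2 ∈ HB S A := fun x hx y hy =>
    Finset.mem_union_left _ (Finset.mem_image.2 ⟨(y, x), Finset.mk_mem_product hy hx, rfl⟩)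
  have mHB2 : ∀ x ∈ A, ∀ f ∈ S, x.1⁻¹ • f ∈ HB S A := fun x hx f hf =>
    Finset.mem_union_right _ (Finset.mem_image.2 ⟨(x, f), Finset.mk_mem_product hx hf, rfl⟩)
  have mHB3 : ∀ x ∈ A, x.2 ∈ HB S A := by
    intro x hx
    have := mHB1 x hx x hx
    rwa [inv_smul_smul₀ (memA x hx).1] at this
  have m4 : ∀ h ∈ HB S A, ∀ k ≤ D, (te ^ k)⁻¹ • h ∈ HH te D (HB S A) := fun h hh k hk =>
    Finset.mem_image.2 ⟨(h, k), Finset.mk_mem_product hh (Finset.mem_range.2 (by omega)), rfl⟩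
  have m5 : ∀ h ∈ HB S A, h ∈ HH te D (HB S A) := by
    intro h hh
    have := m4 h hh 0 (Nat.zero_le _)
    rwa [pow_zero, inv_one, one_smul] at this
  have m7 : ∀ h ∈ HH te D (HB S A), h ∈ SS te p D S A := fun h hh =>
    Finset.mem_union_left _ (Finset.mem_union_right _ hh)
  have m10 : ∀ x ∈ A, ∀ h ∈ HH te D (HB S A), ∀ c < p, x.2 - (c : E) • h ∈ SS te p D S A :=
    fun x hx h hh c hc => Finset.mem_union_right _ (Finset.mem_image.2 ⟨(x, (h, c)),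
      Finset.mk_mem_product hx (Finset.mk_mem_product hh (Finset.mem_range.2 hc)), rfl⟩)
  have m8 : ∀ f ∈ S, f ∈ SS te p D S A := fun f hf => Finset.mem_union_left _
    (Finset.mem_union_left _ (Finset.mem_union_left _ hf))
  have m9 : ∀ x ∈ A, x.1 • x.2 ∈ SS te p D S A := fun x hx => Finset.mem_union_left _
    (Finset.mem_union_left _ (Finset.mem_union_right _ (Finset.mem_image.2 ⟨x, hx, rfl⟩)))
  obtain ⟨z, hz1, hz2⟩ := choice hM1 hM2 e1 e2 te ht1 ht2 hD A w hw0 ρ1 ρ2 (HB S A)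
    (HH te D (HB S A)) (SS te p D S A) (fun x hx => ⟨(memA x hx).2, m5 _ (mHB3 x hx)⟩) m4 m7 m10 hg'
  refine ⟨z - ρ2 (ν.2⁻¹ • ν.1), assemble hM1 hM2 e1 e2 hD hE hEv S A w z hw0 ρ1 ρ2 (HB S A)
    (SS te p D S A) (fun f hf => ⟨m8 f hf, fun x hx => mHB2 x hx f hf⟩)
    (fun x hx => ⟨(memA x hx).1, (memA x hx).2, mHB3 x hx, m9 x hx, mHB1 x hx⟩) hg' hz1 hz2 Λ _ _
    fun f hf => ?_⟩
  by_cases h0 : f.2 = 0
  · left
    refine ⟨f.1, ?_, ?_, ?_⟩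
    · rw [hS]
      exact Finset.mem_image.2 ⟨f, Finset.mem_filter.2 ⟨hf, h0⟩, rfl⟩
    · rw [ext_apply, h0, map_zero, zero_mul, add_zero]
    · rw [ext_apply, h0, map_zero, zero_mul, add_zero]
  · right
    have h1 : e1 f.2 ≠ 0 := (map_ne_zero e1).2 h0
    have h2 : e2 f.2 ≠ 0 := (map_ne_zero e2).2 h0
    refine ⟨(f.2, f.2⁻¹ • f.1 - ν.2⁻¹ • ν.1), ?_, ?_, ?_⟩
    · rw [hAdef]
      exact Finset.mem_image.2 ⟨f, Finset.mem_filter.2 ⟨hf, h0⟩, rfl⟩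
    · have k2 : ρ1 f.1 = e1 f.2 * ρ1 (f.2⁻¹ • f.1) := by
        rw [map_smulₛₗ, smul_eq_mul, map_inv₀, mul_inv_cancel_left₀ h1]
      simp only
      rw [ext_apply, k2, map_sub, hwdef]
      ring
    · have k2 : ρ2 f.1 = e2 f.2 * ρ2 (f.2⁻¹ • f.1) := by
        rw [map_smulₛₗ, smul_eq_mul, map_inv₀, mul_inv_cancel_left₀ h2]
      simp only
      rw [ext_apply, k2, map_sub]
      ring

end main

end FO90
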